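import Mathlib

/-! Baire category tools: continuity of Borel maps on comeagre sets, uniformisation,
and a fusion construction for pairs of generic points. -/

set_option autoImplicit false

open Filter Topology Set TopologicalSpace

namespace Pool.Agent.H933Z.Ess

theorem exists_continuousOn_residual {X Y : Type*} [TopologicalSpace X] [MeasurableSpace X]
    [BorelSpace X] [TopologicalSpace Y] [SecondCountableTopology Y] [MeasurableSpace Y]
    [OpensMeasurableSpace Y] {f : X → Y} (hf : Measurable f) :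
    ∃ C ∈ residual X, ContinuousOn f C := by
  have h1 : ∀ t : countableBasis Y, ∃ u : Set X, IsOpen u ∧ (f ⁻¹' t.1) =ᶠ[residual X] u :=
    fun t => (hf (isOpen_of_mem_countableBasis t.2).measurableSet).residualEq_isOpen
  choose u uo hu using h1
  haveI : Countable (countableBasis Y) := (countable_countableBasis Y).to_subtype
  refine ⟨{x | ∀ t : countableBasis Y, (x ∈ f ⁻¹' t.1 ↔ x ∈ u t)}, ?_, ?_⟩
  · refine eventually_countable_forall.2 fun t => ?_
    filter_upwards [hu t] with x hx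
    exact iff_of_eq hx
  · intro x hx
    refine ((isBasis_countableBasis Y).nhds_hasBasis.tendsto_right_iff).2 ?_
    rintro t ⟨ht, hxt⟩
    have : u ⟨t, ht⟩ ∈ 𝓝 x := (uo ⟨t, ht⟩).mem_nhds ((hx ⟨t, ht⟩).1 hxt)
    filter_upwards [mem_nhdsWithin_of_mem_nhds this, self_mem_nhdsWithin] with y hy hyC
    exact (hyC ⟨t, ht⟩).2 hy

/-- a nonempty open set meets every comeagre set -/
theorem exists_mem_of_residual {X : Type*} [TopologicalSpace X] [BaireSpace X] {W C : Set X}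
    (hW : IsOpen W) (hne : W.Nonempty) (hC : C ∈ residual X) : ∃ x ∈ W, x ∈ C := by
  obtain ⟨x, h1, h2⟩ := (dense_of_mem_residual hC).inter_open_nonempty W hW hne
  exact ⟨x, h1, h2⟩

/-- If a comeagre set is covered by countably many sets, one of them is dense in some nonempty
open subset of a given nonempty open set. -/
theorem exists_dense_piece {X ι : Type*} [TopologicalSpace X] [BaireSpace X] [Countable ι]
    {W C : Set X} (hW : IsOpen W) (hne : W.Nonempty) (hC : C ∈ residual X) (F : ι → Set X)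
    (hF : ∀ x ∈ W, x ∈ C → ∃ i, x ∈ F i) :
    ∃ i, ∃ W' : Set X, IsOpen W' ∧ W'.Nonempty ∧ W' ⊆ W ∧ W' ⊆ closure (F i) := by
  by_contra hcon
  push Not at hcon
  have h1 : ∀ i, ((closure (F i ∩ W))ᶜ) ∈ residual X := by
    intro i
    refine residual_of_dense_open isClosed_closure.isOpen_compl ?_
    rw [← interior_eq_empty_iff_dense_compl]
    by_contra hn
    have hn' : (interior (closure (F i ∩ W))).Nonempty := nonempty_iff_ne_empty.2 hn
    obtain ⟨z, hz⟩ := hn'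
    have hz2 : z ∈ closure (F i ∩ W) := interior_subset hz
    obtain ⟨y, hy1, hy2, hy3⟩ := mem_closure_iff.1 hz2 _ isOpen_interior hz
    refine hcon i (interior (closure (F i ∩ W)) ∩ W) (isOpen_interior.inter hW) ⟨y, hy1, hy3⟩
      inter_subset_right ?_
    exact fun t ht => closure_mono inter_subset_left (interior_subset ht.1)
  have h2 : (⋂ i, (closure (F i ∩ W))ᶜ) ∈ residual X := countable_iInter_mem.2 h1
  obtain ⟨x, hxW, hx1, hx2⟩ := exists_mem_of_residual hW hne (inter_mem hC h2)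
  obtain ⟨i, hi⟩ := hF x hxW hx1
  exact (mem_iInter.1 hx2 i) (subset_closure ⟨hi, hxW⟩)

theorem fusion_aux {X : Type*} [MetricSpace X] [CompleteSpace X] {C : Set X}
    (hC : C ∈ residual X) {D : Type*} (φ : D → X → X) (hφ : ∀ d, Continuous (φ d))
    (hφo : ∀ d, IsOpenMap (φ d)) (Q : ℕ → D → X → X → Prop) (R : ℕ → D → D → Prop)
    (d0 : D) (A0 B0 : Set X) (hA0 : IsOpen A0) (hB0 : IsOpen B0) (h0 : ∃ x ∈ A0, φ d0 x ∈ B0)
    (hQ0 : ∀ a ∈ A0, ∀ b ∈ B0, Q 0 d0 a b)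
    (step : ∀ i d A B, IsOpen A → IsOpen B → (∃ x ∈ A, φ d x ∈ B) →
      (∀ a ∈ A, ∀ b ∈ B, Q i d a b) →
      ∃ d' A' B', IsOpen A' ∧ IsOpen B' ∧ A' ⊆ A ∧ B' ⊆ B ∧ (∃ x ∈ A', φ d' x ∈ B') ∧
        (∀ a ∈ A', ∀ b ∈ B', Q (i + 1) d' a b) ∧ R i d d') :
    ∃ (d : ℕ → D) (xs : ℕ → X) (x y : X), d 0 = d0 ∧ (∀ i, R i (d i) (d (i + 1))) ∧
      x ∈ C ∧ y ∈ C ∧ Tendsto xs atTop (𝓝 x) ∧ Tendsto (fun i => φ (d i) (xs i)) atTop (𝓝 y) ∧
      ∀ i, Q i (d i) x y := by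
  obtain ⟨S, hSo, hSd, hSc, hSC⟩ := mem_residual_iff.1 hC
  obtain ⟨E, hE⟩ := (hSc.insert univ).exists_eq_range (insert_nonempty _ _)
  have hEo : ∀ i, IsOpen (E i) := fun i => by
    have : E i ∈ insert univ S := hE ▸ mem_range_self i
    rcases this with h | h
    · rw [h]; exact isOpen_univ
    · exact hSo _ h
  have hEd : ∀ i, Dense (E i) := fun i => by
    have : E i ∈ insert univ S := hE ▸ mem_range_self i
    rcases this with h | h
    · rw [h]; exact dense_univ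
    · exact hSd _ h
  have hEC : ∀ x, (∀ i, x ∈ E i) → x ∈ C := fun x hx => by
    refine hSC fun t ht => ?_
    have : t ∈ range E := hE ▸ mem_insert_of_mem _ ht
    obtain ⟨i, rfl⟩ := this
    exact hx i
  let G : ℕ → D × Set X × Set X → Prop := fun i s =>
    IsOpen s.2.1 ∧ IsOpen s.2.2 ∧ (∃ x ∈ s.2.1, φ s.1 x ∈ s.2.2) ∧
      (∀ a ∈ s.2.1, ∀ b ∈ s.2.2, Q i s.1 a b)
  have step2 : ∀ i (s : {s // G i s}), ∃ s' : {s // G (i + 1) s},
      R i s.1.1 s'.1.1 ∧ closure s'.1.2.1 ⊆ s.1.2.1 ∩ E i ∧ closure s'.1.2.2 ⊆ s.1.2.2 ∩ E i ∧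
      (∀ a ∈ s'.1.2.1, ∀ b ∈ s'.1.2.1, dist a b ≤ 2 * (1 / ((i : ℝ) + 1))) ∧
      (∀ a ∈ s'.1.2.2, ∀ b ∈ s'.1.2.2, dist a b ≤ 2 * (1 / ((i : ℝ) + 1))) := by
    rintro i ⟨⟨d, A, B⟩, hA, hB, hx, hQ⟩
    obtain ⟨d', A', B', hA', hB', hAA, hBB, hx', hQ', hR⟩ := step i d A B hA hB hx hQ
    have hWo : IsOpen (A' ∩ φ d' ⁻¹' B') := hA'.inter (hB'.preimage (hφ d'))
    have hWn : (A' ∩ φ d' ⁻¹' B').Nonempty := hx'
    have hres : (E i ∩ φ d' ⁻¹' E i) ∈ residual X :=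
      inter_mem (residual_of_dense_open (hEo i) (hEd i))
        (residual_of_dense_open ((hEo i).preimage (hφ d')) ((hEd i).preimage (hφo d')))
    obtain ⟨x, ⟨hxA, hxB⟩, hxE, hxE'⟩ := exists_mem_of_residual hWo hWn hres
    obtain ⟨r1, hr1, h1⟩ := Metric.nhds_basis_closedBall.mem_iff.1
      ((hA'.inter (hEo i)).mem_nhds ⟨hxA, hxE⟩)
    obtain ⟨r2, hr2, h2⟩ := Metric.nhds_basis_closedBall.mem_iff.1
      ((hB'.inter (hEo i)).mem_nhds (show φ d' x ∈ B' ∩ E i from ⟨hxB, hxE'⟩))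
    have hi : (0 : ℝ) < 1 / ((i : ℝ) + 1) := by positivity
    set r := min (min r1 r2) (1 / ((i : ℝ) + 1)) with hr
    have hrpos : 0 < r := lt_min (lt_min hr1 hr2) hi
    have hr1' : r ≤ r1 := (min_le_left _ _).trans (min_le_left _ _)
    have hr2' : r ≤ r2 := (min_le_left _ _).trans (min_le_right _ _)
    have hr3 : r ≤ 1 / ((i : ℝ) + 1) := min_le_right _ _
    have c1 : closure (Metric.ball x r) ⊆ A' ∩ E i :=
      Metric.closure_ball_subset_closedBall.trans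
        ((Metric.closedBall_subset_closedBall hr1').trans h1)
    have c2 : closure (Metric.ball (φ d' x) r) ⊆ B' ∩ E i :=
      Metric.closure_ball_subset_closedBall.trans
        ((Metric.closedBall_subset_closedBall hr2').trans h2)
    have hd : ∀ (z a b : X), a ∈ Metric.ball z r → b ∈ Metric.ball z r →
        dist a b ≤ 2 * (1 / ((i : ℝ) + 1)) := by
      intro z a b ha hb
      have := dist_triangle_right a b z
      rw [Metric.mem_ball] at ha hb
      linarith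
    refine ⟨⟨(d', Metric.ball x r, Metric.ball (φ d' x) r), Metric.isOpen_ball,
      Metric.isOpen_ball, ⟨x, Metric.mem_ball_self hrpos, Metric.mem_ball_self hrpos⟩, ?_⟩,
      hR, ?_, ?_, fun a ha b hb => hd _ a b ha hb, fun a ha b hb => hd _ a b ha hb⟩
    · intro a ha b hb
      exact hQ' a (c1 (subset_closure ha)).1 b (c2 (subset_closure hb)).1
    · exact c1.trans (inter_subset_inter_left _ hAA)
    · exact c2.trans (inter_subset_inter_left _ hBB)
  choose nxt hR hcA hcB hdA hdB using step2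
  let s : ∀ i, {s // G i s} := fun i =>
    Nat.rec (motive := fun i => {s // G i s}) ⟨(d0, A0, B0), hA0, hB0, h0, hQ0⟩ nxt i
  have hs : ∀ i, s (i + 1) = nxt i (s i) := fun i => rfl
  have hx : ∀ i, ∃ x ∈ (s i).1.2.1, φ (s i).1.1 x ∈ (s i).1.2.2 := fun i => (s i).2.2.2.1
  choose xs hxA hxB using hx
  have lim : ∀ (A : ℕ → Set X) (p : ℕ → X), (∀ i, p i ∈ A i) →
      (∀ i, closure (A (i + 1)) ⊆ A i ∩ E i) →
      (∀ i, ∀ a ∈ A (i + 1), ∀ b ∈ A (i + 1), dist a b ≤ 2 * (1 / ((i : ℝ) + 1))) →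
      ∃ x, Tendsto p atTop (𝓝 x) ∧ x ∈ C ∧ ∀ i, x ∈ A i := by
    intro A p hp hc hd
    have hmono : Antitone A := antitone_nat_of_succ_le fun i =>
      subset_closure.trans ((hc i).trans inter_subset_left)
    have hcau : CauchySeq p := by
      refine Metric.cauchySeq_iff'.2 fun ε hε => ?_
      obtain ⟨n, hn⟩ := exists_nat_one_div_lt (show 0 < ε / 2 by positivity)
      refine ⟨n + 1, fun m hm => ?_⟩
      have := hd n (p m) (hmono hm (hp m)) (p (n + 1)) (hp (n + 1))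
      linarith
    obtain ⟨x, hx⟩ := cauchySeq_tendsto_of_complete hcau
    have hcl : ∀ i, x ∈ closure (A (i + 1)) := fun i =>
      mem_closure_of_tendsto hx (eventually_atTop.2 ⟨i + 1, fun m hm => hmono hm (hp m)⟩)
    exact ⟨x, hx, hEC x fun i => (hc i (hcl i)).2, fun i => (hc i (hcl i)).1⟩
  obtain ⟨x, hx1, hx2, hx3⟩ := lim (fun i => (s i).1.2.1) xs hxA
    (fun i => hcA i (s i)) (fun i => hdA i (s i))
  obtain ⟨y, hy1, hy2, hy3⟩ := lim (fun i => (s i).1.2.2) (fun i => φ (s i).1.1 (xs i)) hxB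
    (fun i => hcB i (s i)) (fun i => hdB i (s i))
  exact ⟨fun i => (s i).1.1, xs, x, y, rfl, fun i => hR i (s i), hx2, hy2, hx1, hy1,
    fun i => (s i).2.2.2.2 x (hx3 i) y (hy3 i)⟩

theorem fusion {X : Type*} [TopologicalSpace X] [IsCompletelyMetrizableSpace X] {C : Set X}
    (hC : C ∈ residual X) {D : Type*} (φ : D → X → X) (hφ : ∀ d, Continuous (φ d))
    (hφo : ∀ d, IsOpenMap (φ d)) (Q : ℕ → D → X → X → Prop) (R : ℕ → D → D → Prop)
    (d0 : D) (A0 B0 : Set X) (hA0 : IsOpen A0) (hB0 : IsOpen B0) (h0 : ∃ x ∈ A0, φ d0 x ∈ B0)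
    (hQ0 : ∀ a ∈ A0, ∀ b ∈ B0, Q 0 d0 a b)
    (step : ∀ i d A B, IsOpen A → IsOpen B → (∃ x ∈ A, φ d x ∈ B) →
      (∀ a ∈ A, ∀ b ∈ B, Q i d a b) →
      ∃ d' A' B', IsOpen A' ∧ IsOpen B' ∧ A' ⊆ A ∧ B' ⊆ B ∧ (∃ x ∈ A', φ d' x ∈ B') ∧
        (∀ a ∈ A', ∀ b ∈ B', Q (i + 1) d' a b) ∧ R i d d') :
    ∃ (d : ℕ → D) (xs : ℕ → X) (x y : X), d 0 = d0 ∧ (∀ i, R i (d i) (d (i + 1))) ∧
      x ∈ C ∧ y ∈ C ∧ Tendsto xs atTop (𝓝 x) ∧ Tendsto (fun i => φ (d i) (xs i)) atTop (𝓝 y) ∧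
      ∀ i, Q i (d i) x y := by
  letI := upgradeIsCompletelyMetrizable X
  exact fusion_aux hC φ hφ hφo Q R d0 A0 B0 hA0 hB0 h0 hQ0 step

/-- local control of finitely many coordinates of a map continuous on `C` -/
theorem exists_open_osc {X : Type*} [TopologicalSpace X] {C : Set X} {f : X → ℕ → ℝ}
    (hf : ContinuousOn f C) {x : X} (hx : x ∈ C) (N : ℕ) {ε : ℝ} (hε : 0 < ε) :
    ∃ O : Set X, IsOpen O ∧ x ∈ O ∧ ∀ a ∈ O, a ∈ C → ∀ n < N, |f a n - f x n| < ε := by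
  have h1 : ∀ n, ∀ᶠ a in 𝓝[C] x, |f a n - f x n| < ε := by
    intro n
    have := ((continuous_apply n).continuousAt.comp_continuousWithinAt (hf x hx))
    have h2 := Metric.tendsto_nhds.1 this ε hε
    filter_upwards [h2] with a ha
    simpa [Real.dist_eq] using ha
  have h2 : ∀ᶠ a in 𝓝[C] x, ∀ n ∈ Finset.range N, |f a n - f x n| < ε :=
    (Finset.eventually_all _).2 fun n _ => h1 n
  obtain ⟨O, hO, hxO, hOC⟩ := mem_nhdsWithin.1 h2
  exact ⟨O, hO, hxO, fun a ha haC n hn => hOC ⟨ha, haC⟩ n (Finset.mem_range.2 hn)⟩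

end Pool.Agent.H933Z.Ess
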