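import Pool.Agent.H933Z.Ess.Space

/-! The Cayley transform of a bounded self-adjoint operator. -/

set_option autoImplicit false

open Filter Topology Set TopologicalSpace Complex
open scoped InnerProductSpace

namespace Pool.Agent.H933Z.Ess

variable {H : Type*} [NormedAddCommGroup H] [InnerProductSpace ℂ H] [CompleteSpace H]

theorem isUnit_one_sub {c : H →L[ℂ] H} (hc : IsSelfAdjoint c) : IsUnit (1 - I • c) := by
  have h1 : (-I) ∉ spectrum ℂ c := fun h => by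
    have := hc.im_eq_zero_of_mem_spectrum h
    simp at this
  have h2 := spectrum.notMem_iff.1 h1
  have h3 : (1 : H →L[ℂ] H) - I • c = I • (algebraMap ℂ (H →L[ℂ] H) (-I) - c) := by
    rw [smul_sub, Algebra.algebraMap_eq_smul_one, smul_smul]
    simp
  rw [h3]
  exact h2.smul (Units.mk0 I I_ne_zero)

theorem star_one_sub {c : H →L[ℂ] H} (hc : IsSelfAdjoint c) :
    star (1 - I • c) = 1 + I • c := by
  rw [star_sub, star_one, star_smul, hc.star_eq]
  simp

theorem cay_mem {c : H →L[ℂ] H} (hc : IsSelfAdjoint c) :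
    (1 + I • c) * Ring.inverse (1 - I • c) ∈ unitary (H →L[ℂ] H) := by
  obtain ⟨u, hu⟩ := isUnit_one_sub hc
  have hs : (1 : H →L[ℂ] H) + I • c = star (u : H →L[ℂ] H) := by rw [hu, star_one_sub hc]
  have hn : (u : H →L[ℂ] H) * star (u : H →L[ℂ] H) = star (u : H →L[ℂ] H) * u := by
    rw [← hs, hu]
    generalize I • c = A
    noncomm_ring
  have hn' : u * star u = star u * u := Units.ext (by simpa using hn)
  rw [hs, ← hu, Ring.inverse_unit]
  have e1 : star (u : H →L[ℂ] H) * ((u⁻¹ : (H →L[ℂ] H)ˣ) : H →L[ℂ] H) =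
      ((star u * u⁻¹ : (H →L[ℂ] H)ˣ) : H →L[ℂ] H) := by simp
  rw [e1]
  have e2 : star (star u * u⁻¹) * (star u * u⁻¹) = 1 := by
    rw [star_mul, star_star, star_inv, mul_assoc, ← mul_assoc u, hn']
    group
  have e3 : (star u * u⁻¹) * star (star u * u⁻¹) = 1 := mul_eq_one_comm.1 e2
  rw [Unitary.mem_iff]
  constructor
  · rw [← Units.coe_star, ← Units.val_mul, e2, Units.val_one]
  · rw [← Units.coe_star, ← Units.val_mul, e3, Units.val_one]

/-- Cayley transform -/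
noncomputable def cay (c : selfAdjoint (H →L[ℂ] H)) : unitary (H →L[ℂ] H) :=
  ⟨(1 + I • (c : H →L[ℂ] H)) * Ring.inverse (1 - I • (c : H →L[ℂ] H)), cay_mem c.2⟩

theorem cay_eq (c : selfAdjoint (H →L[ℂ] H)) :
    (cay c : H →L[ℂ] H) * (1 - I • (c : H →L[ℂ] H)) = 1 + I • (c : H →L[ℂ] H) := by
  show (1 + I • (c : H →L[ℂ] H)) * Ring.inverse (1 - I • (c : H →L[ℂ] H)) * _ = _
  rw [mul_assoc, Ring.inverse_mul_cancel _ (isUnit_one_sub c.2), mul_one]

theorem cay_cp (c : selfAdjoint (H →L[ℂ] H)) (hc : IsCompactOperator (c : H →L[ℂ] H)) :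
    Cp (cay c) := by
  unfold Cp
  have h1 : ((cay c : H →L[ℂ] H) - 1) * (1 - I • (c : H →L[ℂ] H)) =
      (2 * I) • (c : H →L[ℂ] H) := by
    rw [sub_mul, cay_eq, one_mul, mul_smul, two_smul]; abel
  have h2 : (cay c : H →L[ℂ] H) - 1 =
      ((2 * I) • (c : H →L[ℂ] H)) * Ring.inverse (1 - I • (c : H →L[ℂ] H)) := by
    rw [← h1, mul_assoc, Ring.mul_inverse_cancel _ (isUnit_one_sub c.2), mul_one]
  rw [h2]
  exact cpt_mul_right (cpt_smul hc _) _

theorem cay_fix (c : selfAdjoint (H →L[ℂ] H)) {v : H} (hv : (c : H →L[ℂ] H) v = 0) :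
    (cay c : H →L[ℂ] H) v = v := by
  have := congrArg (fun T : H →L[ℂ] H => T v) (cay_eq c)
  simpa [hv] using this

theorem cay_eigen (c : selfAdjoint (H →L[ℂ] H)) {v : H} (hv : (c : H →L[ℂ] H) v = v) :
    (cay c : H →L[ℂ] H) v = I • v := by
  have h := congrArg (fun T : H →L[ℂ] H => T v) (cay_eq c)
  simp only [ContinuousLinearMap.mul_apply, ContinuousLinearMap.sub_apply,
    ContinuousLinearMap.add_apply, ContinuousLinearMap.smul_apply, hv,
    ContinuousLinearMap.one_apply, map_sub, map_smul] at h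
  have h1 : (1 - I) • (cay c : H →L[ℂ] H) v = (1 - I) • (I • v) := by
    rw [sub_smul, one_smul, h, smul_smul]
    have : (1 - I) * I = 1 + I := by
      have := I_mul_I
      linear_combination -this
    rw [this, add_smul, one_smul]
  have h2 : (1 - I : ℂ) ≠ 0 := fun h => by
    have := congrArg Complex.re h
    simp at this
  exact smul_right_injective H h2 h1

theorem norm_le_one_sub {c : H →L[ℂ] H} (hc : IsSelfAdjoint c) (v : H) :
    ‖v‖ ≤ ‖(1 - I • c) v‖ := by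
  have hs : c.IsSymmetric := hc.isSymmetric
  have h1 : (⟪v, c v⟫_ℂ).im = 0 := by
    have h := hs.conj_inner_sym v v
    have h' : ⟪c v, v⟫_ℂ = ⟪v, c v⟫_ℂ := hs v v
    have h2 : (starRingEnd ℂ) ⟪v, c v⟫_ℂ = ⟪v, c v⟫_ℂ := by
      rw [inner_conj_symm]; exact h'
    exact conj_eq_iff_im.1 h2
  have h2 : ‖v‖ ^ 2 = (⟪v, (1 - I • c) v⟫_ℂ).re := by
    simp only [ContinuousLinearMap.sub_apply, ContinuousLinearMap.smul_apply,
      ContinuousLinearMap.one_apply, inner_sub_right, inner_smul_right, sub_re, mul_re, I_re,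
      I_im, h1]
    have := inner_self_eq_norm_sq (𝕜 := ℂ) v
    simp only [RCLike.re_to_complex] at this
    rw [this]
    ring
  have h3 : ‖v‖ ^ 2 ≤ ‖v‖ * ‖(1 - I • c) v‖ := by
    rw [h2]
    exact (re_le_norm _).trans (norm_inner_le_norm _ _)
  rcases (norm_nonneg v).eq_or_lt with h | h
  · rw [← h]; exact norm_nonneg _
  · nlinarith

theorem cay_close (c : selfAdjoint (H →L[ℂ] H)) (w : unitary (H →L[ℂ] H)) (c' : H →L[ℂ] H)
    (hw : (w : H →L[ℂ] H) * (1 - I • c') = 1 + I • c') :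
    ‖(cay c : H →L[ℂ] H) - w‖ ≤ 2 * ‖(c : H →L[ℂ] H) - c'‖ := by
  have h1 : ((cay c : H →L[ℂ] H) - w) * (1 - I • (c : H →L[ℂ] H)) =
      I • ((c : H →L[ℂ] H) - c') + I • ((w : H →L[ℂ] H) * ((c : H →L[ℂ] H) - c')) := by
    have e : (w : H →L[ℂ] H) * (1 - I • (c : H →L[ℂ] H)) =
        (w : H →L[ℂ] H) * (1 - I • c') - I • ((w : H →L[ℂ] H) * ((c : H →L[ℂ] H) - c')) := by
      rw [← mul_smul_comm, ← mul_sub, smul_sub]; congr 1; abel
    rw [sub_mul, cay_eq, e, hw, smul_sub]; abel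
  have h2 : ‖((cay c : H →L[ℂ] H) - w) * (1 - I • (c : H →L[ℂ] H))‖ ≤
      2 * ‖(c : H →L[ℂ] H) - c'‖ := by
    rw [h1]
    refine (norm_add_le _ _).trans ?_
    rw [norm_smul, norm_smul, norm_unitary_mul, norm_I]; linarith
  refine ContinuousLinearMap.opNorm_le_bound _ (by positivity) fun v => ?_
  obtain ⟨u, hu⟩ := isUnit_one_sub c.2
  have hv : (1 - I • (c : H →L[ℂ] H)) (((u⁻¹ : (H →L[ℂ] H)ˣ) : H →L[ℂ] H) v) = v := by
    rw [← hu, ← ContinuousLinearMap.mul_apply, Units.mul_inv]; rfl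
  set y := ((u⁻¹ : (H →L[ℂ] H)ˣ) : H →L[ℂ] H) v
  have hy : ‖y‖ ≤ ‖v‖ := by
    have := norm_le_one_sub c.2 y
    rwa [hv] at this
  calc ‖((cay c : H →L[ℂ] H) - w) v‖
      = ‖(((cay c : H →L[ℂ] H) - w) * (1 - I • (c : H →L[ℂ] H))) y‖ := by
        rw [ContinuousLinearMap.mul_apply, hv]
    _ ≤ ‖((cay c : H →L[ℂ] H) - w) * (1 - I • (c : H →L[ℂ] H))‖ * ‖y‖ :=
        ContinuousLinearMap.le_opNorm _ _
    _ ≤ 2 * ‖(c : H →L[ℂ] H) - c'‖ * ‖v‖ := by gcongr

theorem cay_mul (a c : selfAdjoint (H →L[ℂ] H))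
    (h1 : (a : H →L[ℂ] H) * c = 0) (h2 : (c : H →L[ℂ] H) * a = 0) :
    ((cay c * cay a : unitary (H →L[ℂ] H)) : H →L[ℂ] H) * (1 - I • ((a : H →L[ℂ] H) + c)) =
      1 + I • ((a : H →L[ℂ] H) + c) := by
  have e0 : (I • (a : H →L[ℂ] H)) * (I • (c : H →L[ℂ] H)) = 0 := by
    rw [smul_mul_smul_comm, h1, smul_zero]
  have e0' : (I • (c : H →L[ℂ] H)) * (I • (a : H →L[ℂ] H)) = 0 := by
    rw [smul_mul_smul_comm, h2, smul_zero]
  have ha := cay_eq a
  have hc := cay_eq c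
  rw [smul_add]
  set A := I • (a : H →L[ℂ] H)
  set B := I • (c : H →L[ℂ] H)
  have e1 : 1 - (A + B) = (1 - A) * (1 - B) := by
    have : (1 - A) * (1 - B) = 1 - (A + B) + A * B := by noncomm_ring
    rw [this, e0, add_zero]
  have e2 : (1 + A) * (1 - B) = (1 - B) * (1 + A) := by
    have t1 : (1 + A) * (1 - B) = 1 + A - B - A * B := by noncomm_ring
    have t2 : (1 - B) * (1 + A) = 1 + A - B - B * A := by noncomm_ring
    rw [t1, t2, e0, e0']
  have e3 : (1 + B) * (1 + A) = 1 + (A + B) := by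
    have : (1 + B) * (1 + A) = 1 + (A + B) + B * A := by noncomm_ring
    rw [this, e0', add_zero]
  rw [Submonoid.coe_mul, e1, mul_assoc, ← mul_assoc (cay a : H →L[ℂ] H), ha, e2, ← mul_assoc,
    hc, e3]

end Pool.Agent.H933Z.Ess
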