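import Mathlib

/-! Definitions for Borel reducibility of equivalence relations on bounded operators. -/

set_option autoImplicit false

open Filter Topology
open scoped InnerProductSpace

namespace Pool.Agent.H933Z.Ess

/-- The standard Borel structure on `B(H)`: the sigma-algebra generated by the matrix
coefficient maps `a ↦ ⟨a ξ, η⟩`. -/
@[reducible] noncomputable def opBorel (H : Type*) [NormedAddCommGroup H] [InnerProductSpace ℂ H] :
    MeasurableSpace (H →L[ℂ] H) :=
  ⨆ (ξ : H) (η : H), MeasurableSpace.comap (fun a : H →L[ℂ] H => ⟪η, a ξ⟫_ℂ) (borel ℂ)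

/-- `E ≤_B ℝ^ℕ / c₀`: there is a Borel map `f` from `(X, m)` to `ℝ^ℕ` (product topology) such that
`x E y` iff `f x - f y` tends to zero. -/
def ReducesToC0 {X : Type*} (m : MeasurableSpace X) (E : X → X → Prop) : Prop :=
  ∃ f : X → (ℕ → ℝ), @Measurable X (ℕ → ℝ) m (borel (ℕ → ℝ)) f ∧
    ∀ x y, E x y ↔ Tendsto (fun n => f x n - f y n) atTop (𝓝 0)

end Pool.Agent.H933Z.Ess
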