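import Pool.Agent.H933Z.Ess.Modulus

/-! The key lemma: far-out unitaries at distance at least one from the identity that are
invisible to a generically continuous homomorphism to `c₀`. -/

set_option autoImplicit false

open Filter Topology Set TopologicalSpace
open scoped InnerProductSpace

namespace Pool.Agent.H933Z.Ess

variable {H : Type*} [NormedAddCommGroup H] [InnerProductSpace ℂ H] [CompleteSpace H]
  (b : HilbertBasis ℕ ℂ H) {f : ON H → ℕ → ℝ} {C : Set (ON H)}

theorem key (hC : C ∈ residual (ON H)) (hf : ContinuousOn f C)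
    (hred : ∀ x y, IsCompactOperator (U b y - U b x : H →L[ℂ] H) →
      Tendsto (fun n => f y n - f x n) atTop (𝓝 0))
    {V : Set (ON H)} (hV : IsOpen V) (hne : V.Nonempty) {ε : ℝ} (hε : 0 < ε) (K0 : ℕ) :
    ∃ (w : unitary (H →L[ℂ] H)) (ζ : H) (K1 : ℕ) (V' : Set (ON H)), Cp w ∧ Far b K0 w ∧
      (∀ k, K1 ≤ k → (w : H →L[ℂ] H) (b k) = b k) ∧ K0 < K1 ∧ ‖ζ‖ = 1 ∧
      1 ≤ ‖(w : H →L[ℂ] H) ζ - ζ‖ ∧ ζ ∈ Submodule.span ℂ (b '' Ico K0 K1) ∧
      IsOpen V' ∧ V'.Nonempty ∧ V' ⊆ V ∧ (∀ z ∈ V', act b z w ∈ V) ∧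
      ∀ᶠ z in residual (ON H), z ∈ V' → ∀ n, |f (act b z w) n - f z n| ≤ 3 * ε := by
  obtain ⟨VM, δ, NM, hVM, hVMn, hVMV, hδ, hmod⟩ := modulus b hC hf hred hV hne hε
  obtain ⟨x0, hx0⟩ := hVMn
  obtain ⟨V0, Ki, hV0, hx0', hV0M, hinv0⟩ := exists_far_invariant b hVM hx0
  obtain ⟨N, g, h, c, hcong, hgC, hhC, hgfix, hhfix, hsch⟩ := scheme b hδ
  set K0' := max K0 Ki with hK0'
  have hin : ∀ z ∈ V0, ∀ γ, Far b K0' γ → act b z γ ∈ VM := fun z hz γ hγ =>
    hV0M (hinv0 z hz γ (hγ.mono b (le_max_right _ _)))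
  have ind : ∀ j ≤ N, ∃ (q : ℕ → ℕ) (K M : ℕ) (W : Set (ON H)), IsOpen W ∧ W.Nonempty ∧
      W ⊆ V0 ∧ K0' ≤ K ∧ NM ≤ M ∧ (∀ i < j, K0' ≤ q i ∧ q i < K) ∧
      (∀ i i', i < i' → i' < j → q i < q i') ∧
      (∀ x ∈ W, x ∈ C → act b x (g j q) ∈ C → ∀ n ≥ M, |f (act b x (g j q)) n - f x n| ≤ ε) ∧
      ∀ q' : ℕ → ℕ, StrictMono q' → (∀ i < j, q' i = q i) → K ≤ q' j →
        ∀ᶠ z in residual (ON H), z ∈ W → ∀ n < M, |f (act b z (g N q')) n - f z n| ≤ 3 * ε := by
    intro j
    induction j with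
    | zero =>
      intro _
      obtain ⟨W, K, M, h1, h2, h3, h4, h5, h6, h7, h8⟩ :=
        prep b hC hf hred (hgC 0 id) hV0 ⟨x0, hx0'⟩ hε K0' NM
      refine ⟨id, K, M, W, h1, h2, h3, h4, h5, fun i hi => absurd hi (Nat.not_lt_zero i),
        fun i i' _ hi => absurd hi (Nat.not_lt_zero i'), h7, fun q' hq' _ hK => ?_⟩
      filter_upwards [hC, residual_act b hC (g N q')] with z hz1 hz2 hzW n hn
      have hfar : Far b K (g N q') := fun k hk => hgfix N q' k fun i _ =>
        (hk.trans_le (hK.trans (hq'.monotone (Nat.zero_le i)))).ne'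
      have := h8 _ (h6 z hzW _ hfar) hz2 z hzW hz1 n hn
      linarith
    | succ j ih =>
      intro hj
      obtain ⟨q, K, M, W, h1, h2, h3, h4, h5, hq1, hq2, hc, hb⟩ := ih (Nat.le_of_succ_le hj)
      set q1 := Function.update q j K with hq1def
      have e1 : ∀ i < j, q1 i = q i := fun i hi => Function.update_of_ne hi.ne _ _
      have e2 : q1 j = K := Function.update_self _ _ _
      obtain ⟨W', K', M', k1, k2, k3, k4, k5, k6, k7, k8⟩ :=
        prep b hC hf hred (hgC (j + 1) q1) h1 h2 hε (K + 1) M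
      refine ⟨q1, K', M', W', k1, k2, k3.trans h3, h4.trans (by omega), h5.trans k5, ?_, ?_, k7,
        fun q' hq' hqq hK => ?_⟩
      · intro i hi
        rcases Nat.lt_succ_iff_lt_or_eq.1 hi with hi | rfl
        · rw [e1 i hi]; exact ⟨(hq1 i hi).1, by have := (hq1 i hi).2; omega⟩
        · rw [e2]; exact ⟨h4, by omega⟩
      · intro i i' hii hi'
        rcases Nat.lt_succ_iff_lt_or_eq.1 hi' with hi' | rfl
        · rw [e1 i' hi', e1 i (hii.trans hi')]; exact hq2 i i' hii hi'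
        · rw [e2, e1 i hii]; exact (hq1 i hii).2
      · have a1 : ∀ i < j, q' i = q i := fun i hi => by
          rw [hqq i (Nat.lt_succ_of_lt hi), e1 i hi]
        have a2 : q' j = K := by rw [hqq j (Nat.lt_succ_self j), e2]
        have a3 : ∀ i, K0' ≤ q' i := fun i => by
          rcases lt_or_ge i j with hi | hi
          · rw [a1 i hi]; exact (hq1 i hi).1
          · exact h4.trans (a2 ▸ hq'.monotone hi)
        have gfar : ∀ j', Far b K0' (g j' q') := fun j' k hk =>
          hgfix j' q' k fun i _ => (hk.trans_le (a3 i)).ne'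
        have hfar : Far b K' (h j q') := fun k hk => hhfix j q' k fun i hi =>
          (hk.trans_le (hK.trans (hq'.monotone hi))).ne'
        have hgj : g j q' = g j q := hcong j q' q a1
        set γ := (h j q' * g j q')⁻¹ * g N q' with hγ
        have hγC : Cp γ := (((hhC j q').mul (hgC j q')).inv).mul (hgC N q')
        have hγn : ‖(γ : H →L[ℂ] H) - 1‖ < δ := by
          have t1 := (hsch q' hq'.injective).1 j hj
          have t2 : (g N q' : H →L[ℂ] H) - (h j q' * g j q' : unitary (H →L[ℂ] H)) =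
              ((h j q' * g j q' : unitary (H →L[ℂ] H)) : H →L[ℂ] H) * ((γ : H →L[ℂ] H) - 1) := by
            rw [mul_sub, mul_one, ← Submonoid.coe_mul _ _ γ, hγ, mul_inv_cancel_left]
          rwa [t2, norm_unitary_mul] at t1
        filter_upwards [hb q' hq' a1 a2.ge, hC, residual_act b hC (g N q'),
          residual_act b hC (h j q'), residual_act b hC (h j q' * g j q')]
          with z hz0 hz1 hz2 hz3 hz4 hzW n hn
        rcases lt_or_ge n M with hnM | hnM
        · exact hz0 (k3 hzW) n hnM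
        · have hzh : act b z (h j q') ∈ W' := k6 z hzW _ hfar
          have s1 := k8 _ hzh hz3 z hzW hz1 n hn
          have s2 := hc _ (k3 hzh) hz3 (by rw [act_mul, ← hgj]; exact hz4) n hnM
          rw [act_mul, ← hgj] at s2
          have hz0' : z ∈ V0 := h3 (k3 hzW)
          have e : act b (act b z (h j q' * g j q')) γ = act b z (g N q') := by
            rw [act_mul, hγ, mul_inv_cancel_left]
          have s3 := hmod γ hγC hγn (act b z (h j q' * g j q'))
            (hin z hz0' _ ((hfar.mono b (h4.trans (by omega))).mul b (gfar j))) hz4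
            (by rw [e]; exact hin z hz0' _ (gfar N)) (by rw [e]; exact hz2) n (h5.trans hnM)
          rw [e] at s3
          rw [abs_le] at s1 s2 s3 ⊢
          constructor <;> linarith [s1.1, s1.2, s2.1, s2.2, s3.1, s3.2]
  obtain ⟨q, K, M, W, h1, h2, h3, h4, -, hq1, hq2, hc, hb⟩ := ind N le_rfl
  let q' : ℕ → ℕ := fun i => if i < N then q i else K + i
  have hq' : StrictMono q' := by
    intro i i' hii
    by_cases hi' : i' < N
    · simp only [q', if_pos hi', if_pos (hii.trans hi')]; exact hq2 i i' hii hi'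
    · by_cases hi : i < N
      · simp only [q', if_pos hi, if_neg hi']; have := (hq1 i hi).2; omega
      · simp only [q', if_neg hi, if_neg hi']; omega
  have a1 : ∀ i < N, q' i = q i := fun i hi => if_pos hi
  have a2 : K ≤ q' N := by simp [q']
  have hgN : g N q' = g N q := hcong N q' q a1
  have gfar : Far b K0' (g N q') := fun k hk => hgfix N q' k fun i hi => by
    rw [a1 i hi]; exact (hk.trans_le (hq1 i hi).1).ne'
  obtain ⟨-, n1, n2⟩ := hsch q' hq'.injective
  refine ⟨g N q', _, K + 1, W, hgC N q', gfar.mono b (le_max_left _ _), fun k hk => ?_,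
    Nat.lt_succ_of_le ((le_max_left _ _).trans h4), n1, n2, ?_, h1, h2,
    h3.trans (hV0M.trans hVMV), fun z hz => hVMV (hin z (h3 hz) _ gfar), ?_⟩
  · refine hgfix N q' k fun i hi => ?_
    rw [a1 i hi]; have := (hq1 i hi).2; omega
  · refine Submodule.smul_mem _ _ (Submodule.sum_mem _ fun i hi => Submodule.subset_span ?_)
    have hi' := Finset.mem_range.1 hi
    refine ⟨q' i, ?_, rfl⟩
    rw [a1 i hi']
    exact ⟨(le_max_left _ _).trans (hq1 i hi').1, Nat.lt_succ_of_lt (hq1 i hi').2⟩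
  · filter_upwards [hb q' hq' a1 a2, hC, residual_act b hC (g N q')] with z hz0 hz1 hz2 hzW n
    rcases lt_or_ge n M with hn | hn
    · exact hz0 hzW n hn
    · have := hc z hzW hz1 (hgN ▸ hz2) n hn
      rw [hgN]; linarith

theorem exists_window {M : ℕ → ℕ} (hM : StrictMono M) {i0 n : ℕ} (hn : M i0 ≤ n) :
    ∃ i, i0 ≤ i ∧ M i ≤ n ∧ n < M (i + 1) := by
  classical
  have hex : ∃ i, n < M (i + 1) := ⟨n, (Nat.lt_succ_self n).trans_le (hM.id_le (n + 1))⟩
  have h1 := Nat.find_spec hex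
  have h2 : ∀ m < Nat.find hex, M (m + 1) ≤ n := fun m hm => not_lt.1 (Nat.find_min hex hm)
  have h3 : i0 ≤ Nat.find hex := by
    by_contra hc
    have := hM.monotone (show Nat.find hex + 1 ≤ i0 from not_le.1 hc)
    omega
  refine ⟨Nat.find hex, h3, ?_, h1⟩
  rcases h : Nat.find hex with _ | m
  · have : i0 = 0 := by omega
    rwa [this] at hn
  · exact h2 m (by omega)

theorem no_reduction_aux (hC : C ∈ residual (ON H)) (hf : ContinuousOn f C)
    (hred : ∀ x y, IsCompactOperator (U b y - U b x : H →L[ℂ] H) ↔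
      Tendsto (fun n => f y n - f x n) atTop (𝓝 0)) : False := by
  have hred1 := fun x y => (hred x y).1
  let η : ℕ → ℝ := fun i => 1 / ((i : ℝ) + 1)
  have hη : ∀ i, 0 < η i := fun i => by positivity
  let x0 : ON H := ⟨b, b.orthonormal⟩
  have main := fusion hC
    (D := {p : unitary (H →L[ℂ] H) × ℕ //
      Cp p.1 ∧ ∀ k, p.2 ≤ k → (p.1 : H →L[ℂ] H) (b k) = b k} × ℕ × ℕ)
    (fun d x => act b x d.1.1.1) (fun d => continuous_act b _) (fun d => isOpenMap_act b _)
    (fun i d a c => a ∈ C → c ∈ C →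
      (c = act b a d.1.1.1 → ∀ n ≥ d.2.2, |f c n - f a n| ≤ η i) ∧
      (0 < i → ∀ n, d.2.1 ≤ n → n < d.2.2 → |f c n - f a n| ≤ 6 * η (i - 1)))
    (fun i d d' => d'.2.1 = d.2.2 ∧ d.2.2 < d'.2.2 ∧ d.1.1.2 < d'.1.1.2 ∧
      (∀ k < d.1.1.2, (d'.1.1.1 : H →L[ℂ] H) (b k) = (d.1.1.1 : H →L[ℂ] H) (b k)) ∧
      ∃ ζ : H, ‖ζ‖ = 1 ∧ ζ ∈ Submodule.span ℂ (b '' Ico d.1.1.2 d'.1.1.2) ∧
        1 ≤ ‖(d'.1.1.1 : H →L[ℂ] H) ζ - ζ‖)
    (⟨(1, 0), Cp.one, fun _ _ => rfl⟩, 0, 0) univ univ isOpen_univ isOpen_univ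
    ⟨x0, mem_univ _, mem_univ _⟩ ?_ ?_
  · obtain ⟨d, xs, x, y, -, hR, hxC, hyC, hx, hy, hQ⟩ := main
    have hM : StrictMono fun i => (d i).2.2 := strictMono_nat_of_lt_succ fun i => (hR i).2.1
    have hK : StrictMono fun i => (d i).1.1.2 := strictMono_nat_of_lt_succ fun i => (hR i).2.2.1
    have hlim : Tendsto (fun n => f y n - f x n) atTop (𝓝 0) := by
      refine Metric.tendsto_atTop.2 fun ε hε => ?_
      obtain ⟨i0, hi0⟩ := exists_nat_one_div_lt (show 0 < ε / 6 by positivity)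
      refine ⟨(d i0).2.2, fun n hn => ?_⟩
      obtain ⟨i, hi, h1, h2⟩ := exists_window hM hn
      have h3 := (hQ (i + 1) hxC hyC).2 (Nat.succ_pos i) n ((hR i).1 ▸ h1) h2
      have h4 : η i ≤ η i0 := Nat.one_div_le_one_div hi
      rw [Real.dist_eq, sub_zero]
      simp only [Nat.add_sub_cancel] at h3
      have h5 : η i0 < ε / 6 := hi0
      linarith
    have hstab : ∀ i k, k < (d i).1.1.2 → ∀ j ≥ i,
        ((d j).1.1.1 : H →L[ℂ] H) (b k) = ((d i).1.1.1 : H →L[ℂ] H) (b k) := by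
      intro i k hk j hj
      induction j, hj using Nat.le_induction with
      | base => rfl
      | succ j hj ih => rw [(hR j).2.2.2.1 k (hk.trans_le (hK.monotone hj)), ih]
    have hUy : ∀ i k, k < (d i).1.1.2 →
        U b y (b k) = U b x (((d i).1.1.1 : H →L[ℂ] H) (b k)) := by
      intro i k hk
      refine lim_basis b hx hy k ?_
      exact tendsto_const_nhds.congr' (eventually_atTop.2 ⟨i, fun j hj => (hstab i k hk j hj).symm⟩)
    choose ζ hζ1 hζ2 hζ3 using fun i => (hR i).2.2.2.2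
    refine not_compact_of_far b ((hred x y).2 hlim) ζ (fun i => (d i).1.1.2) hK.tendsto_atTop
      (fun i => (hζ1 i).le) (fun i k hk => ?_) (fun i => ?_)
    · refine Submodule.span_induction (p := fun v _ => ⟪b k, v⟫_ℂ = 0) ?_ (inner_zero_right _)
        (fun u v _ _ hu hv => by rw [inner_add_right, hu, hv, add_zero])
        (fun a v _ hv => by rw [inner_smul_right, hv, mul_zero]) (hζ2 i)
      rintro _ ⟨l, hl, rfl⟩
      exact b.orthonormal.2 (hk.trans_le hl.1).ne
    · have e : U b y (ζ i) = U b x (((d (i + 1)).1.1.1 : H →L[ℂ] H) (ζ i)) := by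
        refine Submodule.span_induction
          (p := fun v _ => U b y v = U b x (((d (i + 1)).1.1.1 : H →L[ℂ] H) v)) ?_ (by simp)
          (fun u v _ _ hu hv => by simp only [map_add, hu, hv])
          (fun a v _ hv => by simp only [map_smul, hv]) (hζ2 i)
        rintro _ ⟨l, hl, rfl⟩
        exact hUy (i + 1) l hl.2
      rw [ContinuousLinearMap.sub_apply, e, ← map_sub, U_norm]
      exact hζ3 i
  · intro a _ c _ _ _
    refine ⟨fun hc n _ => ?_, fun h => absurd h (lt_irrefl 0)⟩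
    have : c = a := by rw [hc]; exact act_one b a
    rw [this, sub_self, abs_zero]; exact (hη 0).le
  · rintro i ⟨⟨⟨g, K⟩, hg, hgK⟩, M0, M⟩ A B hA hB hx hQ
    set V : Set (ON H) := {z | act b z g⁻¹ ∈ A} ∩ B with hVdef
    have hVo : IsOpen V := (hA.preimage (continuous_act b g⁻¹)).inter hB
    have hVn : V.Nonempty := by
      obtain ⟨x, hxA, hxB⟩ := hx
      refine ⟨act b x g, ?_, hxB⟩
      simpa only [mem_setOf_eq, act_mul, mul_inv_cancel, act_one]
    obtain ⟨w, ζ, K1, V', hw, hwK, hwK1, hKK, hζ1, hζ2, hζ3, hV', hV'n, hV'V, hV'w, hgen⟩ :=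
      key b hC hf hred1 hVo hVn (hη i) K
    obtain ⟨W', N', hW', hW'n, hW'W, hU⟩ := unif b hC hf hred1 (hg.mul hw)
      (W := {x | act b x g ∈ V'}) (hV'.preimage (continuous_act b g))
      (by
        obtain ⟨z, hz⟩ := hV'n
        exact ⟨act b z g⁻¹, by simpa only [mem_setOf_eq, act_mul, inv_mul_cancel, act_one]⟩)
      (hη (i + 1))
    have hWA : W' ⊆ A := fun x hx => by
      have := (hV'V (hW'W hx)).1
      simpa only [mem_setOf_eq, act_mul, mul_inv_cancel, act_one] using this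
    obtain ⟨x, hxW, ⟨hxC, hxg⟩, hxgw, hxgen⟩ := exists_mem_of_residual hW' hW'n
      (inter_mem (inter_mem hC (residual_act b hC g))
        (inter_mem (residual_act b hC (g * w)) (residual_act b hgen g)))
    have hxV' : act b x g ∈ V' := hW'W hxW
    have hxB : act b x (g * w) ∈ B := by rw [← act_mul]; exact (hV'w _ hxV').2
    obtain ⟨O1, hO1, hxO1, h1⟩ := exists_open_osc hf hxC (max N' (M + 1)) (hη i)
    obtain ⟨O2, hO2, hxO2, h2⟩ := exists_open_osc hf (x := act b x (g * w)) hxgw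
      (max N' (M + 1)) (hη i)
    have hgζ : (g : H →L[ℂ] H) ζ = ζ := by
      refine Submodule.span_induction (p := fun v _ => (g : H →L[ℂ] H) v = v) ?_ (by simp)
        (fun u v _ _ hu hv => by simp only [map_add, hu, hv])
        (fun a v _ hv => by simp only [map_smul, hv]) hζ3
      rintro _ ⟨l, hl, rfl⟩
      exact hgK l hl.1
    refine ⟨(⟨(g * w, K1), hg.mul hw, fun k hk => ?_⟩, M, max N' (M + 1)), W' ∩ O1, B ∩ O2,
      hW'.inter hO1, hB.inter hO2, inter_subset_left.trans hWA, inter_subset_left,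
      ⟨x, ⟨hxW, hxO1⟩, hxB, hxO2⟩, ?_, rfl, lt_max_of_lt_right (Nat.lt_succ_self M), hKK,
      fun k hk => ?_, ζ, hζ1, hζ3, ?_⟩
    · show (g : H →L[ℂ] H) ((w : H →L[ℂ] H) (b k)) = b k
      rw [hwK1 k hk, hgK k (hKK.le.trans hk)]
    · intro a ha c hc haC hcC
      refine ⟨fun hca n hn => ?_, fun _ n hn1 hn2 => ?_⟩
      · have hca' : c = act b a (g * w) := hca
        rw [hca']
        exact hU a ha.1 haC (hca' ▸ hcC) n ((le_max_left _ _).trans hn)
      · have s1 := h1 a ha.2 haC n hn2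
        have s2 := h2 c hc.2 hcC n hn2
        have s3 := (hQ x (hWA hxW) (act b x g) (hV'V hxV').2 hxC hxg).1 rfl n hn1
        have s4 := hxgen hxV' n
        rw [act_mul] at s4
        simp only [Nat.add_sub_cancel]
        rw [abs_lt] at s1 s2
        rw [abs_le] at s3 s4 ⊢
        constructor <;> linarith [s1.1, s1.2, s2.1, s2.2, s3.1, s3.2, s4.1, s4.2]
    · show (g : H →L[ℂ] H) ((w : H →L[ℂ] H) (b k)) = (g : H →L[ℂ] H) (b k)
      rw [hwK k hk]
    · show 1 ≤ ‖(g : H →L[ℂ] H) ((w : H →L[ℂ] H) ζ) - ζ‖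
      have : (g : H →L[ℂ] H) ((w : H →L[ℂ] H) ζ) - ζ =
          (g : H →L[ℂ] H) ((w : H →L[ℂ] H) ζ - ζ) := by rw [map_sub, hgζ]
      rw [this, unitary_norm]; exact hζ2

end Pool.Agent.H933Z.Ess
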