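import Pool.Agent.H933Z.Ess.Key
import Pool.Agent.H933Z.Ess.Defs

/-! Transfer from isometries to projections and to all bounded operators. -/

set_option autoImplicit false

open Filter Topology Set TopologicalSpace
open scoped InnerProductSpace

namespace Pool.Agent.H933Z.Ess

variable {H : Type*} [NormedAddCommGroup H] [InnerProductSpace ℂ H] [CompleteSpace H]

theorem exists_nat_basis [SeparableSpace H] (hinf : ¬ FiniteDimensional ℂ H) :
    Nonempty (HilbertBasis ℕ ℂ H) := by
  obtain ⟨w, b, hb⟩ := exists_hilbertBasis ℂ H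
  have hc : Countable w := by
    refine Pairwise.countable_of_isOpen_disjoint (s := fun i : w => Metric.ball (b i) (1 / 2)) ?_
      (fun _ => Metric.isOpen_ball) (fun _ => Metric.nonempty_ball.2 (by norm_num))
    intro i j hij
    refine Metric.ball_disjoint_ball ?_
    have h1 : ‖b i - b j‖ ^ 2 = 2 := by
      rw [@norm_sub_sq ℂ, b.orthonormal.1 i, b.orthonormal.1 j, b.orthonormal.2 hij]
      norm_num
    rw [dist_eq_norm]
    nlinarith [norm_nonneg (b i - b j)]
  have hi : Infinite w := by
    by_contra h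
    have : Finite w := not_infinite_iff_finite.1 h
    have := Fintype.ofFinite w
    exact hinf (b.toOrthonormalBasis.toBasis.finiteDimensional_of_finite)
  obtain ⟨e⟩ : Nonempty (ℕ ≃ w) := nonempty_equiv_of_countable
  refine ⟨HilbertBasis.mk (v := b ∘ e) (b.orthonormal.comp e e.injective) ?_⟩
  rw [e.surjective.range_comp]
  exact b.dense_span.ge

theorem cpt_star {T : H →L[ℂ] H} (hT : IsCompactOperator T) :
    IsCompactOperator (star T : H →L[ℂ] H) := by
  have hS := cpt_mul_right hT (star T)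
  have tb : TotallyBounded ((T * star T : H →L[ℂ] H) '' Metric.closedBall 0 1) :=
    (IsCompactOperator.isCompact_closure_image_closedBall
      (f := ((T * star T : H →L[ℂ] H) : H →ₗ[ℂ] H)) hS 1).totallyBounded.subset subset_closure
  suffices TotallyBounded ((star T : H →L[ℂ] H) '' Metric.closedBall 0 1) by
    change IsCompactOperator ((star T : H →L[ℂ] H) : H →ₗ[ℂ] H)
    rw [isCompactOperator_iff_isCompact_closure_image_closedBall _ zero_lt_one]
    exact this.closure.isCompact_of_isClosed isClosed_closure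
  rw [Metric.totallyBounded_iff]
  intro ε hε
  obtain ⟨t, hts, htf, hcov⟩ := Metric.finite_approx_of_totallyBounded tb (ε ^ 2 / 2)
    (by positivity)
  obtain ⟨t', ht's, ht'f, rfl⟩ := htf.exists_subset_finite_image_eq hts
  refine ⟨(star T : H →L[ℂ] H) '' t', ht'f.image _, ?_⟩
  rintro _ ⟨u, hu, rfl⟩
  obtain ⟨_, ⟨v, hv, rfl⟩, huv⟩ := mem_iUnion₂.1 (hcov ⟨u, hu, rfl⟩)
  refine mem_iUnion₂.2 ⟨_, ⟨v, hv, rfl⟩, ?_⟩
  rw [Metric.mem_ball, dist_eq_norm, ← map_sub] at huv ⊢
  have h1 : ‖u - v‖ ≤ 2 := by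
    have := norm_sub_le u v
    have a1 : ‖u‖ ≤ 1 := by simpa using hu
    have a2 : ‖v‖ ≤ 1 := by simpa using ht's hv
    linarith
  have h2 : ‖(star T : H →L[ℂ] H) (u - v)‖ ^ 2 ≤ ‖u - v‖ * ‖(T * star T : H →L[ℂ] H) (u - v)‖ := by
    have e : ⟪(star T : H →L[ℂ] H) (u - v), (star T : H →L[ℂ] H) (u - v)⟫_ℂ =
        ⟪u - v, (T * star T : H →L[ℂ] H) (u - v)⟫_ℂ := by
      rw [ContinuousLinearMap.star_eq_adjoint, ContinuousLinearMap.adjoint_inner_left]; rfl
    refine le_trans ?_ (norm_inner_le_norm (𝕜 := ℂ) _ _)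
    rw [← e, inner_self_eq_norm_sq_to_K, norm_pow]; simp
  have h3 : ‖(star T : H →L[ℂ] H) (u - v)‖ ^ 2 < ε ^ 2 := by
    have := norm_nonneg ((T * star T : H →L[ℂ] H) (u - v))
    nlinarith
  exact lt_of_pow_lt_pow_left₀ 2 hε.le h3

variable (b : HilbertBasis ℕ ℂ H)

theorem star_U_mul_self (x : ON H) : star (U b x) * U b x = 1 := by
  ext v
  refine ext_inner_left ℂ fun w => ?_
  rw [ContinuousLinearMap.star_eq_adjoint]
  show ⟪w, ContinuousLinearMap.adjoint (U b x) (U b x v)⟫_ℂ = ⟪w, v⟫_ℂ
  rw [ContinuousLinearMap.adjoint_inner_right, U_inner]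

theorem star_U_mul (x y : ON H) (h : ∀ k l, ⟪x.1 k, y.1 l⟫_ℂ = 0) : star (U b x) * U b y = 0 := by
  refine ext_basis b fun l => ?_
  refine b.repr.injective ?_
  ext k
  rw [b.repr_apply_apply, b.repr_apply_apply, ContinuousLinearMap.star_eq_adjoint]
  show ⟪b k, ContinuousLinearMap.adjoint (U b x) (U b y (b l))⟫_ℂ = ⟪b k, 0⟫_ℂ
  rw [ContinuousLinearMap.adjoint_inner_right, U_basis, U_basis, h, inner_zero_right]

/-- even basis vectors -/
noncomputable def ev : ON H := ⟨fun k => b (2 * k), b.orthonormal.comp _ fun _ _ h => by omega⟩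

/-- odd basis vectors -/
noncomputable def od : ON H := ⟨fun k => b (2 * k + 1), b.orthonormal.comp _ fun _ _ h => by omega⟩

/-- graph operator -/
noncomputable def gr (x : ON H) : H →L[ℂ] H := U b (ev b) + U b (od b) * U b x

theorem ev_od : star (U b (ev b)) * U b (od b) = 0 :=
  star_U_mul b _ _ fun k l => b.orthonormal.2 (show 2 * k ≠ 2 * l + 1 by omega)

theorem od_ev : star (U b (od b)) * U b (ev b) = 0 :=
  star_U_mul b _ _ fun k l => b.orthonormal.2 (show 2 * k + 1 ≠ 2 * l by omega)

theorem od_gr (x : ON H) : star (U b (od b)) * gr b x = U b x := by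
  rw [gr, mul_add, od_ev, ← mul_assoc, star_U_mul_self, zero_add, one_mul]

theorem ev_gr (x : ON H) : star (U b (ev b)) * gr b x = 1 := by
  rw [gr, mul_add, star_U_mul_self, ← mul_assoc, ev_od, zero_mul, add_zero]

theorem gr_gr (x : ON H) : star (gr b x) * gr b x = 1 + 1 := by
  nth_rewrite 1 [gr]
  rw [star_add, star_mul, add_mul, ev_gr, mul_assoc, od_gr, star_U_mul_self]

/-- the projection onto the graph of the isometry coded by `x` -/
noncomputable def pr (x : ON H) : {p : H →L[ℂ] H // IsStarProjection p} :=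
  ⟨(1 / 2 : ℂ) • (gr b x * star (gr b x)), by
    constructor
    · show _ * _ = _
      rw [smul_mul_smul_comm, mul_assoc, ← mul_assoc (star (gr b x)), gr_gr, add_mul, one_mul,
        mul_add, ← two_smul ℂ, smul_smul]
      norm_num
    · show star _ = _
      rw [star_smul, star_mul, star_star]
      congr 1
      simp⟩

theorem pr_cpt (x y : ON H) :
    IsCompactOperator ((pr b y).1 - (pr b x).1 : H →L[ℂ] H) ↔
      IsCompactOperator (U b y - U b x : H →L[ℂ] H) := by
  constructor
  · intro h
    have e : ∀ z, star (U b (od b)) * (pr b z).1 * U b (ev b) = (1 / 2 : ℂ) • U b z := by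
      intro z
      show star (U b (od b)) * ((1 / 2 : ℂ) • (gr b z * star (gr b z))) * U b (ev b) = _
      have : star (gr b z) * U b (ev b) = 1 := by
        have := congrArg star (ev_gr b z)
        rwa [star_mul, star_star, star_one] at this
      rw [mul_smul_comm, smul_mul_assoc, ← mul_assoc, od_gr, mul_assoc, this, mul_one]
    have e2 : U b y - U b x =
        (2 : ℂ) • (star (U b (od b)) * ((pr b y).1 - (pr b x).1) * U b (ev b)) := by
      rw [mul_sub, sub_mul, e, e, ← smul_sub, smul_smul]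
      norm_num
    rw [e2]
    exact cpt_smul (cpt_mul_right (cpt_mul_left h _) _) _
  · intro h
    have h1 : IsCompactOperator (gr b y - gr b x : H →L[ℂ] H) := by
      have : gr b y - gr b x = U b (od b) * (U b y - U b x) := by
        rw [gr, gr, mul_sub]; abel
      rw [this]; exact cpt_mul_left h _
    have e : (pr b y).1 - (pr b x).1 = (1 / 2 : ℂ) •
        ((gr b y - gr b x) * star (gr b y) + gr b x * star (gr b y - gr b x)) := by
      show (1 / 2 : ℂ) • (gr b y * star (gr b y)) - (1 / 2 : ℂ) • (gr b x * star (gr b x)) = _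
      rw [← smul_sub, star_sub]
      congr 1
      noncomm_ring
    rw [e]
    exact cpt_smul (cpt_add (cpt_mul_right h1 _) (cpt_mul_left (cpt_star h1) _)) _

theorem measurable_pr [MeasurableSpace (ON H)] [BorelSpace (ON H)] :
    @Measurable _ _ _ (MeasurableSpace.comap Subtype.val (opBorel H)) (pr b) := by
  rw [measurable_iff_comap_le, MeasurableSpace.comap_comp, opBorel]
  simp only [MeasurableSpace.comap_iSup, MeasurableSpace.comap_comp]
  refine iSup_le fun ξ => iSup_le fun η => ?_
  rw [← measurable_iff_comap_le]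
  borelize ℂ
  have hc : ∀ k, Continuous fun x : ON H => gr b x (b k) := fun k =>
    continuous_const.add ((U b (od b)).continuous.comp (continuous_U_apply b (b k)))
  refine measurable_of_tendsto_metrizable
    (f := fun K x => (1 / 2 : ℂ) * ∑ k ∈ Finset.range K,
      ⟪η, gr b x (b k)⟫_ℂ * ⟪gr b x (b k), ξ⟫_ℂ) (fun K => ?_) ?_
  · refine Continuous.measurable ?_
    refine continuous_const.mul (continuous_finsetSum _ fun k _ => ?_)
    exact (continuous_const.inner (hc k)).mul ((hc k).inner continuous_const)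
  · rw [tendsto_pi_nhds]
    intro x
    have h1 := (b.hasSum_inner_mul_inner (ContinuousLinearMap.adjoint (gr b x) η)
      (ContinuousLinearMap.adjoint (gr b x) ξ)).tendsto_sum_nat
    rw [ContinuousLinearMap.adjoint_inner_left] at h1
    simp only [ContinuousLinearMap.adjoint_inner_left (gr b x) (b _),
      ContinuousLinearMap.adjoint_inner_right (gr b x) (b _)] at h1
    have h2 : ((fun a : H →L[ℂ] H => ⟪η, a ξ⟫_ℂ) ∘ Subtype.val ∘ pr b) x =
        (1 / 2 : ℂ) * ⟪η, gr b x (ContinuousLinearMap.adjoint (gr b x) ξ)⟫_ℂ := by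
      show ⟪η, ((1 / 2 : ℂ) • (gr b x * star (gr b x))) ξ⟫_ℂ = _
      rw [ContinuousLinearMap.smul_apply, inner_smul_right]; rfl
    rw [h2]
    exact h1.const_mul _

theorem not_reduces_proj [SeparableSpace H] (hinf : ¬ FiniteDimensional ℂ H) :
    ¬ ReducesToC0 (X := {p : H →L[ℂ] H // IsStarProjection p})
      (MeasurableSpace.comap Subtype.val (opBorel H))
      (fun p q => IsCompactOperator (p.1 - q.1 : H →L[ℂ] H)) := by
  rintro ⟨F, hF, hred⟩
  obtain ⟨b⟩ := exists_nat_basis hinf
  borelize (ON H)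
  let _ : MeasurableSpace (ℕ → ℝ) := borel _
  have : BorelSpace (ℕ → ℝ) := ⟨rfl⟩
  have hm : Measurable (F ∘ pr b) := hF.comp (measurable_pr b)
  obtain ⟨C, hC, hf⟩ := exists_continuousOn_residual hm
  exact no_reduction_aux b hC hf fun x y => (pr_cpt b x y).symm.trans (hred _ _)

theorem not_reduces_all [SeparableSpace H] (hinf : ¬ FiniteDimensional ℂ H) :
    ¬ ReducesToC0 (opBorel H) (fun a c => IsCompactOperator (a - c : H →L[ℂ] H)) := by
  rintro ⟨F, hF, hred⟩
  exact not_reduces_proj hinf ⟨F ∘ Subtype.val,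
    hF.comp (measurable_iff_comap_le.2 le_rfl), fun p q => hred p.1 q.1⟩

end Pool.Agent.H933Z.Ess
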