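import Pool.Agent.H933Z.Ess.Scheme

/-! Uniformisation and modulus of continuity for a generically continuous homomorphism to `c₀`. -/

set_option autoImplicit false

open Filter Topology Set TopologicalSpace
open scoped InnerProductSpace

namespace Pool.Agent.H933Z.Ess

variable {H : Type*} [NormedAddCommGroup H] [InnerProductSpace ℂ H] [CompleteSpace H]
  (b : HilbertBasis ℕ ℂ H) {f : ON H → ℕ → ℝ} {C : Set (ON H)}

theorem cpt_U_sub (x y : ON H) {T : H →L[ℂ] H} (hT : IsCompactOperator (T - 1 : H →L[ℂ] H))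
    (h : U b y = U b x * T) : IsCompactOperator (U b y - U b x : H →L[ℂ] H) := by
  have : U b y - U b x = U b x * (T - 1) := by rw [h, mul_sub, mul_one]
  rw [this]; exact cpt_mul_left hT _

theorem unif (hC : C ∈ residual (ON H)) (hf : ContinuousOn f C)
    (hred : ∀ x y, IsCompactOperator (U b y - U b x : H →L[ℂ] H) →
      Tendsto (fun n => f y n - f x n) atTop (𝓝 0))
    {g : unitary (H →L[ℂ] H)} (hg : Cp g) {W : Set (ON H)} (hW : IsOpen W) (hne : W.Nonempty)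
    {ε : ℝ} (hε : 0 < ε) :
    ∃ (W' : Set (ON H)) (N : ℕ), IsOpen W' ∧ W'.Nonempty ∧ W' ⊆ W ∧
      ∀ x ∈ W', x ∈ C → act b x g ∈ C → ∀ n ≥ N, |f (act b x g) n - f x n| ≤ ε := by
  have hC' : C ∩ {x | act b x g ∈ C} ∈ residual (ON H) := inter_mem hC (residual_act b hC g)
  obtain ⟨N, W', h1, h2, h3, h4⟩ := exists_dense_piece hW hne hC'
    (fun N : ℕ => {x | x ∈ C ∩ {x | act b x g ∈ C} ∧ ∀ n ≥ N, |f (act b x g) n - f x n| ≤ ε})
    (fun x _ hx => by
      have := hred x (act b x g) (cpt_U_sub b x _ hg (U_act b x g))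
      obtain ⟨N, hN⟩ := Metric.tendsto_atTop.1 this ε hε
      exact ⟨N, hx, fun n hn => by simpa [Real.dist_eq] using (hN n hn).le⟩)
  refine ⟨W', N, h1, h2, h3, fun x hx hxC hxg n hn => ?_⟩
  have c1 : ContinuousOn (fun x => |f (act b x g) n - f x n|) (C ∩ {x | act b x g ∈ C}) := by
    refine ContinuousOn.abs (ContinuousOn.sub ?_ ?_)
    · exact (continuous_apply n).comp_continuousOn
        (hf.comp (continuous_act b g).continuousOn fun z hz => hz.2)
    · exact (continuous_apply n).comp_continuousOn (hf.mono inter_subset_left)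
  exact ContinuousWithinAt.closure_le (h4 hx) ((c1 x ⟨hxC, hxg⟩).mono fun z hz => hz.1)
    continuousWithinAt_const fun z hz => hz.2 n hn

theorem lim_basis {xs : ℕ → ON H} {x y : ON H} {g : ℕ → unitary (H →L[ℂ] H)}
    (hx : Tendsto xs atTop (𝓝 x)) (hy : Tendsto (fun i => act b (xs i) (g i)) atTop (𝓝 y))
    (k : ℕ) {v : H} (hv : Tendsto (fun i => (g i : H →L[ℂ] H) (b k)) atTop (𝓝 v)) :
    U b y (b k) = U b x v := by
  rw [U_basis]
  have h1 : Tendsto (fun i => (act b (xs i) (g i)).1 k) atTop (𝓝 (y.1 k)) :=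
    (((continuous_apply k).comp continuous_subtype_val).tendsto y).comp hy
  exact tendsto_nhds_unique h1 (tendsto_U_apply b hx hv)

theorem modulus (hC : C ∈ residual (ON H)) (hf : ContinuousOn f C)
    (hred : ∀ x y, IsCompactOperator (U b y - U b x : H →L[ℂ] H) →
      Tendsto (fun n => f y n - f x n) atTop (𝓝 0))
    {V : Set (ON H)} (hV : IsOpen V) (hne : V.Nonempty) {ε : ℝ} (hε : 0 < ε) :
    ∃ (V' : Set (ON H)) (δ : ℝ) (N : ℕ), IsOpen V' ∧ V'.Nonempty ∧ V' ⊆ V ∧ 0 < δ ∧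
      ∀ γ : unitary (H →L[ℂ] H), Cp γ → ‖(γ : H →L[ℂ] H) - 1‖ < δ → ∀ z ∈ V', z ∈ C →
        act b z γ ∈ V' → act b z γ ∈ C → ∀ n ≥ N, |f (act b z γ) n - f z n| ≤ ε := by
  by_contra hcon
  push Not at hcon
  obtain ⟨x0, hx0⟩ := hne
  have main := fusion hC (D := {g : unitary (H →L[ℂ] H) // Cp g} × ℕ)
    (fun d x => act b x d.1.1) (fun d => continuous_act b _) (fun d => isOpenMap_act b _)
    (fun i d a c => c ∈ V ∧ (0 < i → a ∈ C → c ∈ C → ε / 6 ≤ |f c d.2 - f a d.2|))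
    (fun i d d' => ‖(d'.1.1 : H →L[ℂ] H) - d.1.1‖ ≤ (1 / 2) ^ i ∧ i ≤ d'.2)
    (⟨1, Cp.one⟩, 0) V V hV hV ⟨x0, hx0, by simpa [act_one] using hx0⟩
    (fun a _ c hc => ⟨hc, fun h => absurd h (lt_irrefl 0)⟩) ?_
  · obtain ⟨d, xs, x, y, -, hR, hxC, hyC, hx, hy, hQ⟩ := main
    have hcau : CauchySeq fun i => ((d i).1.1 : H →L[ℂ] H) := by
      refine cauchySeq_of_le_geometric (1 / 2) 1 (by norm_num) fun i => ?_
      rw [dist_comm, dist_eq_norm, one_mul]; exact (hR i).1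
    obtain ⟨T, hT⟩ := cauchySeq_tendsto_of_complete hcau
    have hTc : IsCompactOperator (T - 1 : H →L[ℂ] H) :=
      isCompactOperator_of_tendsto (hT.sub_const 1) (Eventually.of_forall fun i => (d i).1.2)
    have hU : U b y = U b x * T := by
      refine ext_basis b fun k => ?_
      refine lim_basis b hx hy k ?_
      exact ((ContinuousLinearMap.apply ℂ H (b k)).continuous.tendsto T).comp hT
    have h0 := hred x y (cpt_U_sub b x y hTc hU)
    obtain ⟨N, hN⟩ := Metric.tendsto_atTop.1 h0 (ε / 6) (by positivity)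
    have h1 := (hQ (N + 1)).2 (Nat.succ_pos N) hxC hyC
    have h2 := hN _ (hR N).2
    rw [Real.dist_eq, sub_zero] at h2
    linarith
  · rintro i ⟨⟨g, hg⟩, n0⟩ A B hA hB hx hQ
    have hBV : B ⊆ V := by
      obtain ⟨x, hxA, -⟩ := hx
      exact fun c hc => (hQ x hxA c hc).1
    obtain ⟨W', N', hW', hW'n, hW'W, hU⟩ := unif b hC hf hred hg
      (W := A ∩ {x | act b x g ∈ B}) (hA.inter (hB.preimage (continuous_act b g))) hx
      (ε := ε / 3) (by positivity)
    set V' : Set (ON H) := {z | act b z g⁻¹ ∈ W'} with hV'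
    have hV'o : IsOpen V' := hW'.preimage (continuous_act b g⁻¹)
    have hV'B : V' ⊆ B := by
      intro z hz
      have := (hW'W hz).2
      simpa only [mem_setOf_eq, act_mul, inv_mul_cancel, act_one] using this
    have hV'n : V'.Nonempty := by
      obtain ⟨x, hx⟩ := hW'n
      exact ⟨act b x g, by simpa only [hV', mem_setOf_eq, act_mul, mul_inv_cancel, act_one]⟩
    obtain ⟨γ, hγ, hγn, z, hzV, hzC, hzγV, hzγC, n, hn, hlt⟩ :=
      hcon V' ((1 / 2) ^ i) (max N' i) hV'o hV'n (hV'B.trans hBV) (by positivity)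
    obtain ⟨O1, hO1, hzO1, h1⟩ := exists_open_osc hf hzC (n + 1) (ε := ε / 6) (by positivity)
    obtain ⟨O2, hO2, hzO2, h2⟩ := exists_open_osc hf hzγC (n + 1) (ε := ε / 6) (by positivity)
    obtain ⟨z', ⟨⟨hz'V, hz'O⟩, hz'γ⟩, hz'C, hz'g⟩ := exists_mem_of_residual
      (W := (V' ∩ O1) ∩ {z | act b z γ ∈ O2 ∩ V'})
      ((hV'o.inter hO1).inter ((hO2.inter hV'o).preimage (continuous_act b γ)))
      ⟨z, ⟨hzV, hzO1⟩, hzO2, hzγV⟩ (inter_mem hC (residual_act b hC g⁻¹))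
    set x := act b z' g⁻¹ with hxdef
    have hxg : act b x g = z' := by rw [hxdef, act_mul, inv_mul_cancel, act_one]
    have hxW : x ∈ W' := hz'V
    obtain ⟨O3, hO3, hxO3, h3⟩ := exists_open_osc hf (x := x) hz'g (n + 1) (ε := ε / 6)
      (by positivity)
    refine ⟨(⟨g * γ, hg.mul hγ⟩, n), A ∩ O3, O2 ∩ V', hA.inter hO3, hO2.inter hV'o,
      inter_subset_left, inter_subset_right.trans hV'B, ⟨x, ⟨(hW'W hxW).1, hxO3⟩, ?_⟩, ?_, ?_, ?_⟩
    · show act b x (g * γ) ∈ O2 ∩ V'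
      rw [← act_mul, hxg]; exact hz'γ
    · intro a ha c hc
      refine ⟨hBV (hV'B hc.2), fun _ haC hcC => ?_⟩
      have e1 := h1 z' hz'O hz'C n (Nat.lt_succ_self n)
      have e2 := h2 c hc.1 hcC n (Nat.lt_succ_self n)
      have e3 := h3 a ha.2 haC n (Nat.lt_succ_self n)
      have e4 := hU x hxW hz'g (hxg ▸ hz'C) n ((le_max_left _ _).trans hn)
      rw [hxg] at e4
      show ε / 6 ≤ |f c n - f a n|
      rw [abs_lt] at e1 e2 e3
      rw [abs_le] at e4
      rcases lt_abs.1 hlt with h | h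
      · exact le_abs.2 (Or.inl (by linarith))
      · exact le_abs.2 (Or.inr (by linarith))
    · show ‖((g * γ : unitary (H →L[ℂ] H)) : H →L[ℂ] H) - g‖ ≤ _
      have : ((g * γ : unitary (H →L[ℂ] H)) : H →L[ℂ] H) - g =
          (g : H →L[ℂ] H) * ((γ : H →L[ℂ] H) - 1) := by
        rw [Submonoid.coe_mul, mul_sub, mul_one]
      rw [this, norm_unitary_mul]; exact hγn.le
    · exact (le_max_right _ _).trans hn

theorem prep (hC : C ∈ residual (ON H)) (hf : ContinuousOn f C)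
    (hred : ∀ x y, IsCompactOperator (U b y - U b x : H →L[ℂ] H) →
      Tendsto (fun n => f y n - f x n) atTop (𝓝 0))
    {g : unitary (H →L[ℂ] H)} (hg : Cp g) {W : Set (ON H)} (hW : IsOpen W) (hne : W.Nonempty)
    {ε : ℝ} (hε : 0 < ε) (K0 M0 : ℕ) :
    ∃ (V' : Set (ON H)) (K M : ℕ), IsOpen V' ∧ V'.Nonempty ∧ V' ⊆ W ∧ K0 ≤ K ∧ M0 ≤ M ∧
      (∀ z ∈ V', ∀ h, Far b K h → act b z h ∈ V') ∧
      (∀ x ∈ V', x ∈ C → act b x g ∈ C → ∀ n ≥ M, |f (act b x g) n - f x n| ≤ ε) ∧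
      (∀ a ∈ V', a ∈ C → ∀ a' ∈ V', a' ∈ C → ∀ n < M, |f a n - f a' n| ≤ ε) := by
  obtain ⟨W', N, h1, h2, h3, h4⟩ := unif b hC hf hred hg hW hne hε
  obtain ⟨x, hxW, hxC⟩ := exists_mem_of_residual h1 h2 hC
  obtain ⟨O, hO, hxO, h5⟩ := exists_open_osc hf hxC (max N M0) (ε := ε / 2) (by positivity)
  obtain ⟨V', K, k1, k2, k3, k4⟩ := exists_far_invariant b (h1.inter hO) ⟨hxW, hxO⟩
  refine ⟨V', max K K0, max N M0, k1, ⟨x, k2⟩, fun z hz => h3 (k3 hz).1, le_max_right _ _,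
    le_max_right _ _, fun z hz h hh => k4 z hz h (hh.mono b (le_max_left _ _)),
    fun z hz hzC hzg n hn => h4 z (k3 hz).1 hzC hzg n ((le_max_left _ _).trans hn), ?_⟩
  intro a ha haC a' ha' ha'C n hn
  have e1 := h5 a (k3 ha).2 haC n hn
  have e2 := h5 a' (k3 ha').2 ha'C n hn
  rw [abs_lt] at e1 e2
  rw [abs_le]
  constructor <;> linarith

end Pool.Agent.H933Z.Ess
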