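import Pool.Agent.H933Z.Ess.Cayley

/-! A hierarchical self-adjoint operator of norm one which, at every cut, almost splits into a part
supported before the cut and a part supported after it. -/

set_option autoImplicit false

open Filter Topology Set TopologicalSpace Complex
open scoped InnerProductSpace

namespace Pool.Agent.H933Z.Ess

variable {H : Type*} [NormedAddCommGroup H] [InnerProductSpace ℂ H] [CompleteSpace H]

/-- index block -/
def idx (N M a : ℕ) : Finset ℕ := (Finset.range N).filter fun i => i / M = a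

theorem mem_idx {N M a i : ℕ} : i ∈ idx N M a ↔ i < N ∧ i / M = a := by simp [idx]

theorem idx_subset {N M a : ℕ} (hM : 0 < M) : idx N M a ⊆ Finset.Ico (a * M) (a * M + M) := by
  intro i hi
  obtain ⟨-, h⟩ := mem_idx.1 hi
  have h1 := Nat.div_add_mod i M
  have h2 := Nat.mod_lt i hM
  rw [Finset.mem_Ico, ← h, mul_comm]
  generalize M * (i / M) = t at h1 ⊢
  omega

theorem card_idx_le {N M a : ℕ} (hM : 0 < M) : (idx N M a).card ≤ M := by
  simpa using Finset.card_le_card (idx_subset (N := N) (a := a) hM)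

theorem card_idx_eq {N M a : ℕ} (hM : 0 < M) (ha : a < N / M) : (idx N M a).card = M := by
  have : idx N M a = Finset.Ico (a * M) (a * M + M) := by
    refine Finset.Subset.antisymm (idx_subset hM) fun i hi => ?_
    rw [Finset.mem_Ico] at hi
    refine mem_idx.2 ⟨?_, ?_⟩
    · have h1 : (a + 1) * M ≤ N / M * M := Nat.mul_le_mul_right _ ha
      have h2 := Nat.div_mul_le_self N M
      nlinarith [hi.2]
    · exact Nat.div_eq_of_lt_le hi.1 (by nlinarith [hi.2])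
  rw [this]; simp

/-- block vector -/
noncomputable def blk (e : ℕ → H) (N M a : ℕ) : H := ∑ i ∈ idx N M a, e i

/-- the hierarchical operator -/
noncomputable def hop (e : ℕ → H) (N r : ℕ) (S : ℕ → Finset ℕ) : H →L[ℂ] H :=
  ∑ s ∈ Finset.range r, ∑ a ∈ S s, ((1 / ((r : ℝ) * (r : ℝ) ^ (s + 1)) : ℝ) : ℂ) •
    InnerProductSpace.rankOne ℂ (blk e N (r ^ (s + 1)) a) (blk e N (r ^ (s + 1)) a)

theorem hop_apply (e : ℕ → H) (N r : ℕ) (S : ℕ → Finset ℕ) (v : H) :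
    hop e N r S v = ∑ s ∈ Finset.range r, ∑ a ∈ S s,
      ((1 / ((r : ℝ) * (r : ℝ) ^ (s + 1)) : ℝ) : ℂ) •
        (⟪blk e N (r ^ (s + 1)) a, v⟫_ℂ • blk e N (r ^ (s + 1)) a) := by
  simp only [hop, ContinuousLinearMap.sum_apply, ContinuousLinearMap.smul_apply,
    InnerProductSpace.rankOne_apply]

theorem hop_sa (e : ℕ → H) (N r : ℕ) (S : ℕ → Finset ℕ) : IsSelfAdjoint (hop e N r S) := by
  unfold hop
  rw [IsSelfAdjoint, star_sum]
  refine Finset.sum_congr rfl fun s _ => ?_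
  rw [star_sum]
  refine Finset.sum_congr rfl fun a _ => ?_
  rw [star_smul, ContinuousLinearMap.star_eq_adjoint, InnerProductSpace.adjoint_rankOne]
  congr 1
  exact conj_ofReal _

theorem cpt_rankOne (x y : H) :
    IsCompactOperator (InnerProductSpace.rankOne ℂ x y : H →L[ℂ] H) := by
  rw [InnerProductSpace.rankOne_def']
  exact (isCompactOperator_of_locallyCompactSpace_dom (innerSL ℂ y)).clm_comp
    (ContinuousLinearMap.toSpanSingleton ℂ x)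

theorem cpt_sum {ι : Type*} (s : Finset ι) (T : ι → H →L[ℂ] H)
    (h : ∀ i ∈ s, IsCompactOperator (T i)) : IsCompactOperator (∑ i ∈ s, T i : H →L[ℂ] H) :=
  Finset.sum_induction T (fun S : H →L[ℂ] H => IsCompactOperator S) (fun _ _ => cpt_add)
    isCompactOperator_zero h

theorem hop_cpt (e : ℕ → H) (N r : ℕ) (S : ℕ → Finset ℕ) : IsCompactOperator (hop e N r S) :=
  cpt_sum _ _ fun _ _ => cpt_sum _ _ fun _ _ => cpt_smul (cpt_rankOne _ _) _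

theorem hop_zero (e : ℕ → H) (N r : ℕ) (S : ℕ → Finset ℕ) (v : H)
    (h : ∀ s < r, ∀ a ∈ S s, ∀ i < N, i / r ^ (s + 1) = a → ⟪e i, v⟫_ℂ = 0) :
    hop e N r S v = 0 := by
  rw [hop_apply]
  refine Finset.sum_eq_zero fun s hs => Finset.sum_eq_zero fun a ha => ?_
  have : ⟪blk e N (r ^ (s + 1)) a, v⟫_ℂ = 0 := by
    rw [blk, sum_inner]
    exact Finset.sum_eq_zero fun i hi =>
      h s (Finset.mem_range.1 hs) a ha i (mem_idx.1 hi).1 (mem_idx.1 hi).2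
  rw [this, zero_smul, smul_zero]

theorem inner_hop_zero (e : ℕ → H) (N r : ℕ) (S : ℕ → Finset ℕ) (v w : H)
    (h : ∀ s < r, ∀ a ∈ S s, ∀ i < N, i / r ^ (s + 1) = a → ⟪e i, w⟫_ℂ = 0) :
    ⟪w, hop e N r S v⟫_ℂ = 0 := by
  have h1 : ⟪hop e N r S w, v⟫_ℂ = ⟪w, hop e N r S v⟫_ℂ := (hop_sa e N r S).isSymmetric w v
  rw [← h1, hop_zero e N r S w h, inner_zero_left]

theorem hop_mul {e : ℕ → H} (he : Orthonormal ℂ e) (N r : ℕ) (S S' : ℕ → Finset ℕ)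
    (h : ∀ s < r, ∀ a ∈ S s, ∀ i, i / r ^ (s + 1) = a →
      ∀ s' < r, ∀ a' ∈ S' s', ∀ i', i' / r ^ (s' + 1) = a' → i' ≠ i) :
    hop e N r S * hop e N r S' = 0 := by
  ext v
  show hop e N r S (hop e N r S' v) = 0
  refine hop_zero e N r S _ fun s hs a ha i _ hi => ?_
  refine inner_hop_zero e N r S' v _ fun s' hs' a' ha' i' _ hi' => ?_
  exact he.2 (h s hs a ha i hi s' hs' a' ha' i' hi')

theorem bessel_chain {e : ℕ → H} (he : Orthonormal ℂ e) (N r j : ℕ) (hr : 0 < r) (v : H) :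
    ∑ s ∈ Finset.range r, 1 / (r : ℝ) ^ (s + 1) *
      ‖⟪blk e N (r ^ (s + 1)) (j / r ^ (s + 1)), v⟫_ℂ‖ ^ 2 ≤ 4 * ‖v‖ ^ 2 := by
  set B : ℕ → Finset ℕ := fun s => idx N (r ^ s) (j / r ^ s) with hB
  set α : ℕ → ℝ := fun s => ∑ i ∈ B s, ‖⟪e i, v⟫_ℂ‖ ^ 2 with hα
  have hα1 : ∀ s, α s ≤ ‖v‖ ^ 2 := fun s => he.sum_inner_products_le v
  have hα0 : ∀ s, 0 ≤ α s := fun s => Finset.sum_nonneg fun _ _ => sq_nonneg _
  have hsub : ∀ s, B s ⊆ B (s + 1) := by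
    intro s i hi
    obtain ⟨h1, h2⟩ := mem_idx.1 hi
    refine mem_idx.2 ⟨h1, ?_⟩
    rw [pow_succ, ← Nat.div_div_eq_div_mul, ← Nat.div_div_eq_div_mul, h2]
  have hcard : ∀ s, ((B s).card : ℝ) ≤ (r : ℝ) ^ s := fun s => by
    exact_mod_cast card_idx_le (pow_pos hr s)
  have hr' : (0 : ℝ) < r := by exact_mod_cast hr
  have cs : ∀ T : Finset ℕ, ‖∑ i ∈ T, ⟪e i, v⟫_ℂ‖ ^ 2 ≤ T.card * ∑ i ∈ T, ‖⟪e i, v⟫_ℂ‖ ^ 2 := by
    intro T
    refine le_trans ?_ sq_sum_le_card_mul_sum_sq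
    gcongr
    exact norm_sum_le _ _
  have key : ∀ s, 1 / (r : ℝ) ^ (s + 1) *
      ‖⟪blk e N (r ^ (s + 1)) (j / r ^ (s + 1)), v⟫_ℂ‖ ^ 2 ≤
      2 * (α (s + 1) - α s) + 2 * ‖v‖ ^ 2 / r := by
    intro s
    have h1 : ⟪blk e N (r ^ (s + 1)) (j / r ^ (s + 1)), v⟫_ℂ =
        ∑ i ∈ B (s + 1) \ B s, ⟪e i, v⟫_ℂ + ∑ i ∈ B s, ⟪e i, v⟫_ℂ := by
      rw [Finset.sum_sdiff (hsub s), blk, sum_inner]
    have h2 : ∑ i ∈ B (s + 1) \ B s, ‖⟪e i, v⟫_ℂ‖ ^ 2 = α (s + 1) - α s := by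
      rw [eq_sub_iff_add_eq]; exact Finset.sum_sdiff (hsub s)
    have h3 := cs (B (s + 1) \ B s)
    have h4 := cs (B s)
    rw [h2] at h3
    have h5 : ((B (s + 1) \ B s).card : ℝ) ≤ (r : ℝ) ^ (s + 1) :=
      le_trans (by exact_mod_cast Finset.card_le_card Finset.sdiff_subset) (hcard (s + 1))
    have h6 : 0 ≤ α (s + 1) - α s := h2 ▸ Finset.sum_nonneg fun _ _ => sq_nonneg _
    have h7 : ‖∑ i ∈ B (s + 1) \ B s, ⟪e i, v⟫_ℂ‖ ^ 2 ≤ (r : ℝ) ^ (s + 1) * (α (s + 1) - α s) :=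
      h3.trans (mul_le_mul_of_nonneg_right h5 h6)
    have h8 : ‖∑ i ∈ B s, ⟪e i, v⟫_ℂ‖ ^ 2 ≤ (r : ℝ) ^ s * ‖v‖ ^ 2 :=
      h4.trans (mul_le_mul (hcard s) (hα1 s) (hα0 s) (by positivity))
    rw [h1]
    set P := ∑ i ∈ B (s + 1) \ B s, ⟪e i, v⟫_ℂ
    set Q := ∑ i ∈ B s, ⟪e i, v⟫_ℂ
    have h9 : ‖P + Q‖ ^ 2 ≤ 2 * ‖P‖ ^ 2 + 2 * ‖Q‖ ^ 2 := by
      have := norm_add_le P Q
      nlinarith [norm_nonneg (P + Q), norm_nonneg P, norm_nonneg Q, sq_nonneg (‖P‖ - ‖Q‖)]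
    have h10 : 1 / (r : ℝ) ^ (s + 1) * (2 * ((r : ℝ) ^ (s + 1) * (α (s + 1) - α s)) +
        2 * ((r : ℝ) ^ s * ‖v‖ ^ 2)) = 2 * (α (s + 1) - α s) + 2 * ‖v‖ ^ 2 / r := by
      field_simp
      ring
    rw [← h10]
    gcongr
    linarith
  refine (Finset.sum_le_sum fun s _ => key s).trans ?_
  rw [Finset.sum_add_distrib, ← Finset.mul_sum, Finset.sum_range_sub, Finset.sum_const,
    Finset.card_range, nsmul_eq_mul]
  have : (r : ℝ) * (2 * ‖v‖ ^ 2 / r) = 2 * ‖v‖ ^ 2 := by field_simp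
  rw [this]
  linarith [hα1 r, hα0 0]

theorem norm_hop_chain {e : ℕ → H} (he : Orthonormal ℂ e) (N r j : ℕ) (hr : 0 < r) :
    ‖hop e N r (fun s => {j / r ^ (s + 1)})‖ ≤ 4 / r := by
  have hr' : (0 : ℝ) < r := by exact_mod_cast hr
  refine ContinuousLinearMap.opNorm_le_bound _ (by positivity) fun v => ?_
  set η := hop e N r (fun s => {j / r ^ (s + 1)}) v with hη
  set u : ℕ → H := fun s => blk e N (r ^ (s + 1)) (j / r ^ (s + 1)) with hu
  have b1 := bessel_chain he N r j hr v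
  have b2 := bessel_chain he N r j hr η
  have h1 : ‖η‖ ^ 2 ≤ ∑ s ∈ Finset.range r,
      1 / ((r : ℝ) * (r : ℝ) ^ (s + 1)) * (‖⟪u s, v⟫_ℂ‖ * ‖⟪u s, η⟫_ℂ‖) := by
    have e1 : ‖η‖ ^ 2 = ‖⟪η, η⟫_ℂ‖ := by
      rw [inner_self_eq_norm_sq_to_K, norm_pow]; simp
    rw [e1]
    nth_rewrite 2 [hη]
    rw [hop_apply, inner_sum]
    refine (norm_sum_le _ _).trans (Finset.sum_le_sum fun s _ => ?_)
    rw [Finset.sum_singleton, inner_smul_right, inner_smul_right, norm_mul, norm_mul,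
      norm_real, Real.norm_of_nonneg (by positivity), norm_inner_symm η]
  have h2 : ∀ s, 1 / ((r : ℝ) * (r : ℝ) ^ (s + 1)) * (‖⟪u s, v⟫_ℂ‖ * ‖⟪u s, η⟫_ℂ‖) ≤
      2 / (r : ℝ) ^ 2 * (1 / (r : ℝ) ^ (s + 1) * ‖⟪u s, v⟫_ℂ‖ ^ 2) +
        1 / 8 * (1 / (r : ℝ) ^ (s + 1) * ‖⟪u s, η⟫_ℂ‖ ^ 2) := by
    intro s
    set x := ‖⟪u s, v⟫_ℂ‖
    set y := ‖⟪u s, η⟫_ℂ‖
    have hp : (0 : ℝ) < 1 / (r : ℝ) ^ (s + 1) := by positivity
    have e : 2 / (r : ℝ) ^ 2 * (1 / (r : ℝ) ^ (s + 1) * x ^ 2) +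
        1 / 8 * (1 / (r : ℝ) ^ (s + 1) * y ^ 2) -
        1 / ((r : ℝ) * (r : ℝ) ^ (s + 1)) * (x * y) =
        1 / (r : ℝ) ^ (s + 1) * (2 * (x / r - y / 4) ^ 2) := by
      field_simp
      ring
    have : 0 ≤ 1 / (r : ℝ) ^ (s + 1) * (2 * (x / r - y / 4) ^ 2) := by positivity
    linarith
  have h3 := h1.trans (Finset.sum_le_sum fun s _ => h2 s)
  rw [Finset.sum_add_distrib, ← Finset.mul_sum, ← Finset.mul_sum] at h3
  have h4 : ‖η‖ ^ 2 ≤ 2 / (r : ℝ) ^ 2 * (4 * ‖v‖ ^ 2) + 1 / 8 * (4 * ‖η‖ ^ 2) := by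
    refine h3.trans ?_
    gcongr
  have h5 : ‖η‖ ^ 2 ≤ (4 / r * ‖v‖) ^ 2 := by
    have : (4 / r * ‖v‖) ^ 2 = 2 * (2 / (r : ℝ) ^ 2 * (4 * ‖v‖ ^ 2)) := by
      field_simp
      ring
    rw [this]; linarith
  exact (pow_le_pow_iff_left₀ (norm_nonneg _) (by positivity) two_ne_zero).1 h5

theorem hop_top {e : ℕ → H} (he : Orthonormal ℂ e) (r : ℕ) (hr : 0 < r) :
    hop e (r ^ r) r (fun s => Finset.range (r ^ r / r ^ (s + 1)))
      (∑ i ∈ Finset.range (r ^ r), e i) = ∑ i ∈ Finset.range (r ^ r), e i := by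
  have hr' : (r : ℂ) ≠ 0 := by exact_mod_cast hr.ne'
  rw [hop_apply]
  have h1 : ∀ s ∈ Finset.range r, ∑ a ∈ Finset.range (r ^ r / r ^ (s + 1)),
      ((1 / ((r : ℝ) * (r : ℝ) ^ (s + 1)) : ℝ) : ℂ) •
        (⟪blk e (r ^ r) (r ^ (s + 1)) a, ∑ i ∈ Finset.range (r ^ r), e i⟫_ℂ •
          blk e (r ^ r) (r ^ (s + 1)) a) = (1 / (r : ℂ)) • ∑ i ∈ Finset.range (r ^ r), e i := by
    intro s hs
    have hM : 0 < r ^ (s + 1) := pow_pos hr _
    have hdvd : r ^ (s + 1) ∣ r ^ r := pow_dvd_pow _ (Finset.mem_range.1 hs)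
    have h2 : ∑ i ∈ Finset.range (r ^ r), e i =
        ∑ a ∈ Finset.range (r ^ r / r ^ (s + 1)), blk e (r ^ r) (r ^ (s + 1)) a := by
      refine (Finset.sum_fiberwise_of_maps_to (fun i hi => ?_) e).symm
      exact Finset.mem_range.2 (Nat.div_lt_div_of_lt_of_dvd hdvd (Finset.mem_range.1 hi))
    conv_rhs => rw [h2, Finset.smul_sum]
    refine Finset.sum_congr rfl fun a ha => ?_
    have h3 : ⟪blk e (r ^ r) (r ^ (s + 1)) a, ∑ i ∈ Finset.range (r ^ r), e i⟫_ℂ =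
        (r : ℂ) ^ (s + 1) := by
      rw [blk, sum_inner]
      have : ∀ i ∈ idx (r ^ r) (r ^ (s + 1)) a,
          ⟪e i, ∑ i ∈ Finset.range (r ^ r), e i⟫_ℂ = 1 := by
        intro i hi
        rw [inner_sum, Finset.sum_eq_single i]
        · rw [inner_self_eq_norm_sq_to_K, he.1 i]; simp
        · intro k _ hk; exact he.2 hk.symm
        · intro h; exact absurd (Finset.mem_range.2 (mem_idx.1 hi).1) h
      rw [Finset.sum_congr rfl this, Finset.sum_const, card_idx_eq hM (Finset.mem_range.1 ha)]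
      simp
    rw [h3, smul_smul]
    congr 1
    push_cast
    field_simp
  rw [Finset.sum_congr rfl h1, Finset.sum_const, Finset.card_range, ← Nat.cast_smul_eq_nsmul ℂ,
    smul_smul]
  have : (r : ℂ) * (1 / r) = 1 := by field_simp
  rw [this, one_smul]

theorem hop_split (e : ℕ → H) (r j : ℕ) (hj : j < r ^ r) :
    hop e (r ^ r) r (fun s => Finset.range (r ^ r / r ^ (s + 1))) -
      (hop e (r ^ r) r (fun s => Finset.range (j / r ^ (s + 1))) +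
        hop e (r ^ r) r (fun s => Finset.Ioo (j / r ^ (s + 1)) (r ^ r / r ^ (s + 1)))) =
      hop e (r ^ r) r (fun s => {j / r ^ (s + 1)}) := by
  unfold hop
  rw [← Finset.sum_add_distrib, ← Finset.sum_sub_distrib]
  refine Finset.sum_congr rfl fun s hs => ?_
  have hdvd : r ^ (s + 1) ∣ r ^ r := pow_dvd_pow _ (Finset.mem_range.1 hs)
  have hlt : j / r ^ (s + 1) < r ^ r / r ^ (s + 1) := Nat.div_lt_div_of_lt_of_dvd hdvd hj
  rw [Finset.sum_singleton, ← Finset.sum_range_add_sum_Ico _ hlt.le,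
    Finset.sum_eq_sum_Ico_succ_bot hlt, Finset.Ico_add_one_left_eq_Ioo]
  abel

theorem scheme (b : HilbertBasis ℕ ℂ H) {δ : ℝ} (hδ : 0 < δ) :
    ∃ (N : ℕ) (g h : ℕ → (ℕ → ℕ) → unitary (H →L[ℂ] H)) (c : ℂ),
      (∀ j q q', (∀ i < j, q i = q' i) → g j q = g j q') ∧
      (∀ j q, Cp (g j q)) ∧ (∀ j q, Cp (h j q)) ∧
      (∀ j q k, (∀ i < j, q i ≠ k) → (g j q : H →L[ℂ] H) (b k) = b k) ∧
      (∀ j q k, (∀ i, j < i → q i ≠ k) → (h j q : H →L[ℂ] H) (b k) = b k) ∧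
      ∀ q : ℕ → ℕ, Function.Injective q →
        (∀ j < N, ‖(g N q : H →L[ℂ] H) - (h j q * g j q : unitary (H →L[ℂ] H))‖ < δ) ∧
        ‖c • ∑ i ∈ Finset.range N, b (q i)‖ = 1 ∧
        1 ≤ ‖(g N q : H →L[ℂ] H) (c • ∑ i ∈ Finset.range N, b (q i)) -
          c • ∑ i ∈ Finset.range N, b (q i)‖ := by
  obtain ⟨r, hr⟩ := exists_nat_gt (8 / δ)
  have hr0 : (0 : ℝ) < r := lt_trans (by positivity) hr
  have hr1 : 0 < r := by exact_mod_cast hr0
  have hN : (0 : ℝ) < ((r ^ r : ℕ) : ℝ) := by exact_mod_cast pow_pos hr1 r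
  let lo : ℕ → (ℕ → ℕ) → selfAdjoint (H →L[ℂ] H) := fun j q =>
    ⟨hop (fun i => b (q i)) (r ^ r) r (fun s => Finset.range (j / r ^ (s + 1))), hop_sa _ _ _ _⟩
  let hi : ℕ → (ℕ → ℕ) → selfAdjoint (H →L[ℂ] H) := fun j q =>
    ⟨hop (fun i => b (q i)) (r ^ r) r
      (fun s => Finset.Ioo (j / r ^ (s + 1)) (r ^ r / r ^ (s + 1))), hop_sa _ _ _ _⟩
  have hlo : ∀ {i j M a : ℕ}, a ∈ Finset.range (j / M) → i / M = a → i < j := by
    intro i j M a ha hi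
    exact Nat.lt_of_div_lt_div (hi ▸ Finset.mem_range.1 ha)
  have hhi : ∀ {i j M a n : ℕ}, a ∈ Finset.Ioo (j / M) n → i / M = a → j < i := by
    intro i j M a n ha hi
    exact Nat.lt_of_div_lt_div (hi ▸ (Finset.mem_Ioo.1 ha).1)
  refine ⟨r ^ r, fun j q => cay (lo j q), fun j q => cay (hi j q),
    ((Real.sqrt ((r ^ r : ℕ) : ℝ))⁻¹ : ℝ), ?_, ?_, ?_, ?_, ?_, ?_⟩
  · intro j q q' hq
    have : lo j q = lo j q' := by
      refine Subtype.ext ?_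
      show hop _ _ _ _ = hop _ _ _ _
      unfold hop
      refine Finset.sum_congr rfl fun s _ => Finset.sum_congr rfl fun a ha => ?_
      have : blk (fun i => b (q i)) (r ^ r) (r ^ (s + 1)) a =
          blk (fun i => b (q' i)) (r ^ r) (r ^ (s + 1)) a :=
        Finset.sum_congr rfl fun i hi => congrArg b (hq i (hlo ha (mem_idx.1 hi).2))
      rw [this]
    show cay (lo j q) = cay (lo j q')
    rw [this]
  · exact fun j q => cay_cp _ (hop_cpt _ _ _ _)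
  · exact fun j q => cay_cp _ (hop_cpt _ _ _ _)
  · intro j q k hk
    refine cay_fix _ (hop_zero _ _ _ _ _ fun s _ a ha i _ hi => ?_)
    exact b.orthonormal.2 (hk i (hlo ha hi))
  · intro j q k hk
    refine cay_fix _ (hop_zero _ _ _ _ _ fun s _ a ha i _ hi => ?_)
    exact b.orthonormal.2 (hk i (hhi ha hi))
  · intro q hq
    have he : Orthonormal ℂ fun i => b (q i) := b.orthonormal.comp q hq
    have hnorm : ‖(((Real.sqrt ((r ^ r : ℕ) : ℝ))⁻¹ : ℝ) : ℂ) •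
        ∑ i ∈ Finset.range (r ^ r), b (q i)‖ = 1 := by
      have h1 : ‖∑ i ∈ Finset.range (r ^ r), b (q i)‖ ^ 2 = ((r ^ r : ℕ) : ℝ) := by
        have := he.orthogonalFamily.norm_sum (fun _ => (1 : ℂ)) (Finset.range (r ^ r))
        simpa using this
      have h2 : ‖∑ i ∈ Finset.range (r ^ r), b (q i)‖ = Real.sqrt ((r ^ r : ℕ) : ℝ) := by
        rw [← h1, Real.sqrt_sq (norm_nonneg _)]
      rw [norm_smul, h2, norm_real, Real.norm_of_nonneg (by positivity)]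
      exact inv_mul_cancel₀ (Real.sqrt_pos.2 hN).ne'
    refine ⟨fun j hj => ?_, hnorm, ?_⟩
    · have m1 : ((lo j q : selfAdjoint _) : H →L[ℂ] H) * (hi j q : selfAdjoint _) = 0 :=
        hop_mul he _ _ _ _ fun s _ a ha i hi s' _ a' ha' i' hi' =>
          ((hlo ha hi).trans (hhi ha' hi')).ne'
      have m2 : ((hi j q : selfAdjoint _) : H →L[ℂ] H) * (lo j q : selfAdjoint _) = 0 :=
        hop_mul he _ _ _ _ fun s _ a ha i hi s' _ a' ha' i' hi' =>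
          ((hlo ha' hi').trans (hhi ha hi)).ne
      have h1 := cay_close (lo (r ^ r) q) _ _ (cay_mul (lo j q) (hi j q) m1 m2)
      refine h1.trans_lt ?_
      have h2 : ((lo (r ^ r) q : selfAdjoint _) : H →L[ℂ] H) -
          (((lo j q : selfAdjoint _) : H →L[ℂ] H) + (hi j q : selfAdjoint _)) = _ :=
        hop_split _ r j hj
      rw [h2]
      have h3 := norm_hop_chain he (r ^ r) r j hr1
      have h4 : 2 * (4 / (r : ℝ)) < δ := by
        rw [div_lt_iff₀ hδ] at hr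
        rw [show 2 * (4 / (r : ℝ)) = 8 / r by ring, div_lt_iff₀ hr0]
        linarith
      linarith
    · set ζ := (((Real.sqrt ((r ^ r : ℕ) : ℝ))⁻¹ : ℝ) : ℂ) •
        ∑ i ∈ Finset.range (r ^ r), b (q i) with hζ
      have h1 : ((lo (r ^ r) q : selfAdjoint _) : H →L[ℂ] H) ζ = ζ := by
        rw [hζ, map_smul]
        congr 1
        exact hop_top he r hr1
      show 1 ≤ ‖(cay (lo (r ^ r) q) : H →L[ℂ] H) ζ - ζ‖
      rw [cay_eigen _ h1]
      have h2 : I • ζ - ζ = (I - 1) • ζ := by rw [sub_smul, one_smul]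
      rw [h2, norm_smul, hnorm, mul_one]
      have := abs_im_le_norm (I - 1)
      simpa using this

end Pool.Agent.H933Z.Ess
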