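import Pool.Agent.H933Z.Ess.Baire

/-! The Polish space of isometries of a Hilbert space (coded by orthonormal sequences) with the
right action of the unitary group. -/

set_option autoImplicit false

open Filter Topology Set TopologicalSpace
open scoped InnerProductSpace

namespace Pool.Agent.H933Z.Ess

variable {H : Type*} [NormedAddCommGroup H] [InnerProductSpace ℂ H] [CompleteSpace H]

/-- orthonormal sequences -/
abbrev ON (H : Type*) [NormedAddCommGroup H] [InnerProductSpace ℂ H] :=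
  {x : ℕ → H // Orthonormal ℂ x}

omit [CompleteSpace H] in
theorem isClosed_ON : IsClosed {x : ℕ → H | Orthonormal ℂ x} := by
  have : {x : ℕ → H | Orthonormal ℂ x} =
      ⋂ i, ⋂ j, {x : ℕ → H | ⟪x i, x j⟫_ℂ = if i = j then 1 else 0} := by
    ext x; simp [orthonormal_iff_ite]
  rw [this]
  refine isClosed_iInter fun i => isClosed_iInter fun j => isClosed_eq ?_ continuous_const
  fun_prop

instance : IsCompletelyMetrizableSpace (ON H) := isClosed_ON.isCompletelyMetrizableSpace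

/-- the isometry sending `b k` to `x k` -/
noncomputable def iso (b : HilbertBasis ℕ ℂ H) (x : ON H) : H →ₗᵢ[ℂ] H :=
  x.2.orthogonalFamily.linearIsometry.comp b.repr.toLinearIsometry

/-- the same as a bounded operator -/
noncomputable def U (b : HilbertBasis ℕ ℂ H) (x : ON H) : H →L[ℂ] H :=
  (iso b x).toContinuousLinearMap

variable (b : HilbertBasis ℕ ℂ H)

theorem U_basis (x : ON H) (k : ℕ) : U b x (b k) = x.1 k := by
  classical
  show x.2.orthogonalFamily.linearIsometry (b.repr (b k)) = _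
  rw [b.repr_self, OrthogonalFamily.linearIsometry_apply_single]
  simp

theorem U_norm (x : ON H) (v : H) : ‖U b x v‖ = ‖v‖ := (iso b x).norm_map v

theorem U_inner (x : ON H) (v w : H) : ⟪U b x v, U b x w⟫_ℂ = ⟪v, w⟫_ℂ :=
  (iso b x).inner_map_map v w

omit [CompleteSpace H] in
theorem ext_basis {S T : H →L[ℂ] H} (h : ∀ k, S (b k) = T (b k)) : S = T := by
  refine ContinuousLinearMap.ext_on (s := range b) ?_ ?_
  · rw [Submodule.dense_iff_topologicalClosure_eq_top]; exact b.dense_span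
  · rintro _ ⟨k, rfl⟩; exact h k

theorem continuous_U_apply (v : H) : Continuous fun x : ON H => U b x v := by
  have hs : Tendsto (fun K => ∑ k ∈ Finset.range K, b.repr v k • b k) atTop (𝓝 v) :=
    (b.hasSum_repr v).tendsto_sum_nat
  refine continuous_of_uniform_approx_of_continuous fun u hu => ?_
  obtain ⟨ε, hε, hεu⟩ := Metric.mem_uniformity_dist.1 hu
  obtain ⟨K, hK⟩ := (Metric.tendsto_atTop.1 hs) ε hε
  refine ⟨fun x => ∑ k ∈ Finset.range K, b.repr v k • x.1 k, ?_, fun x => hεu ?_⟩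
  · refine continuous_finsetSum _ fun k _ => ?_
    exact ((continuous_apply k).comp continuous_subtype_val).const_smul _
  · have h1 : ∑ k ∈ Finset.range K, b.repr v k • x.1 k =
        U b x (∑ k ∈ Finset.range K, b.repr v k • b k) := by
      simp [map_sum, U_basis]
    show dist (U b x v) (∑ k ∈ Finset.range K, b.repr v k • x.1 k) < ε
    rw [h1, dist_eq_norm, ← map_sub, U_norm, ← dist_eq_norm, dist_comm]
    exact hK K le_rfl

theorem tendsto_U_apply {xs : ℕ → ON H} {x : ON H} {vs : ℕ → H} {v : H}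
    (hx : Tendsto xs atTop (𝓝 x)) (hv : Tendsto vs atTop (𝓝 v)) :
    Tendsto (fun i => U b (xs i) (vs i)) atTop (𝓝 (U b x v)) := by
  have h1 : Tendsto (fun i => U b (xs i) v) atTop (𝓝 (U b x v)) :=
    ((continuous_U_apply b v).tendsto x).comp hx
  have h2 : Tendsto (fun i => U b (xs i) (vs i - v)) atTop (𝓝 0) := by
    rw [tendsto_zero_iff_norm_tendsto_zero]
    simp only [U_norm]
    exact tendsto_iff_norm_sub_tendsto_zero.1 hv
  have := h1.add h2
  simpa using this

theorem unitary_inner (g : unitary (H →L[ℂ] H)) (v w : H) :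
    ⟪(g : H →L[ℂ] H) v, (g : H →L[ℂ] H) w⟫_ℂ = ⟪v, w⟫_ℂ := by
  rw [← ContinuousLinearMap.adjoint_inner_right, ← ContinuousLinearMap.star_eq_adjoint,
    ← ContinuousLinearMap.mul_apply, Unitary.coe_star_mul_self]
  rfl

theorem unitary_norm (g : unitary (H →L[ℂ] H)) (v : H) : ‖(g : H →L[ℂ] H) v‖ = ‖v‖ := by
  have := unitary_inner g v v
  rw [inner_self_eq_norm_sq_to_K, inner_self_eq_norm_sq_to_K] at this
  have h2 : ‖(g : H →L[ℂ] H) v‖ ^ 2 = ‖v‖ ^ 2 := by exact_mod_cast this
  exact (sq_eq_sq₀ (norm_nonneg _) (norm_nonneg _)).1 h2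

/-- right action of unitaries -/
noncomputable def act (x : ON H) (g : unitary (H →L[ℂ] H)) : ON H :=
  ⟨fun k => U b x ((g : H →L[ℂ] H) (b k)), by
    rw [orthonormal_iff_ite]
    intro i j
    rw [U_inner, unitary_inner]
    exact orthonormal_iff_ite.1 b.orthonormal i j⟩

theorem act_val (x : ON H) (g : unitary (H →L[ℂ] H)) (k : ℕ) :
    (act b x g).1 k = U b x ((g : H →L[ℂ] H) (b k)) := rfl

theorem U_act (x : ON H) (g : unitary (H →L[ℂ] H)) :
    U b (act b x g) = U b x * (g : H →L[ℂ] H) :=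
  ext_basis b fun k => by rw [U_basis]; rfl

theorem act_mul (x : ON H) (g h : unitary (H →L[ℂ] H)) :
    act b (act b x g) h = act b x (g * h) := by
  refine Subtype.ext (funext fun k => ?_)
  rw [act_val, act_val, U_act]; rfl

theorem act_one (x : ON H) : act b x 1 = x := by
  refine Subtype.ext (funext fun k => ?_)
  rw [act_val]; exact U_basis b x k

theorem continuous_act (g : unitary (H →L[ℂ] H)) : Continuous fun x : ON H => act b x g :=
  continuous_induced_rng.2 (continuous_pi fun _ => continuous_U_apply b _)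

/-- the action of one unitary as a homeomorphism -/
noncomputable def actH (g : unitary (H →L[ℂ] H)) : ON H ≃ₜ ON H where
  toFun x := act b x g
  invFun x := act b x g⁻¹
  left_inv x := by simp only [act_mul, mul_inv_cancel, act_one]
  right_inv x := by simp only [act_mul, inv_mul_cancel, act_one]
  continuous_toFun := continuous_act b g
  continuous_invFun := continuous_act b g⁻¹

theorem isOpenMap_act (g : unitary (H →L[ℂ] H)) : IsOpenMap fun x : ON H => act b x g :=
  (actH b g).isOpenMap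

theorem residual_act {C : Set (ON H)} (hC : C ∈ residual (ON H)) (g : unitary (H →L[ℂ] H)) :
    {x | act b x g ∈ C} ∈ residual (ON H) :=
  tendsto_residual_of_isOpenMap (continuous_act b g) (isOpenMap_act b g) hC

/-- unitaries fixing the first `K` basis vectors -/
def Far (K : ℕ) (g : unitary (H →L[ℂ] H)) : Prop := ∀ k < K, (g : H →L[ℂ] H) (b k) = b k

theorem Far.mono {K K' : ℕ} {g : unitary (H →L[ℂ] H)} (h : Far b K g) (hK : K' ≤ K) :
    Far b K' g := fun k hk => h k (hk.trans_le hK)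

theorem Far.mul {K : ℕ} {g h : unitary (H →L[ℂ] H)} (hg : Far b K g) (hh : Far b K h) :
    Far b K (g * h) := fun k hk => by
  show (g : H →L[ℂ] H) ((h : H →L[ℂ] H) (b k)) = b k
  rw [hh k hk, hg k hk]

/-- every neighbourhood contains one that is invariant under all far-out unitaries -/
theorem exists_far_invariant {V : Set (ON H)} (hV : IsOpen V) {x : ON H} (hx : x ∈ V) :
    ∃ (V' : Set (ON H)) (K : ℕ), IsOpen V' ∧ x ∈ V' ∧ V' ⊆ V ∧
      ∀ z ∈ V', ∀ g, Far b K g → act b z g ∈ V' := by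
  obtain ⟨W, hW, rfl⟩ := isOpen_induced_iff.1 hV
  obtain ⟨I, u, hu, hsub⟩ := isOpen_pi_iff.1 hW x.1 hx
  obtain ⟨K, hK⟩ : ∃ K, ∀ i ∈ I, i < K :=
    ⟨I.sup id + 1, fun i hi => Nat.lt_succ_of_le (Finset.le_sup (f := id) hi)⟩
  refine ⟨Subtype.val ⁻¹' ((I : Set ℕ).pi u), K, ?_, fun i hi => (hu i hi).2,
    fun z hz => hsub hz, ?_⟩
  · exact (isOpen_set_pi I.finite_toSet fun i hi => (hu i hi).1).preimage continuous_subtype_val
  · intro z hz g hg i hi
    show (act b z g).1 i ∈ u i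
    rw [act_val, hg i (hK i hi), U_basis]
    exact hz i hi

/-- unitaries that are compact perturbations of the identity -/
def Cp (g : unitary (H →L[ℂ] H)) : Prop := IsCompactOperator ((g : H →L[ℂ] H) - 1 : H →L[ℂ] H)

theorem cpt_mul_left {S : H →L[ℂ] H} (hS : IsCompactOperator S) (T : H →L[ℂ] H) :
    IsCompactOperator (T * S : H →L[ℂ] H) := hS.clm_comp T

theorem cpt_mul_right {S : H →L[ℂ] H} (hS : IsCompactOperator S) (T : H →L[ℂ] H) :
    IsCompactOperator (S * T : H →L[ℂ] H) := hS.comp_clm T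

theorem cpt_add {S T : H →L[ℂ] H} (hS : IsCompactOperator S) (hT : IsCompactOperator T) :
    IsCompactOperator (S + T : H →L[ℂ] H) := hS.add hT

theorem cpt_smul {S : H →L[ℂ] H} (hS : IsCompactOperator S) (c : ℂ) :
    IsCompactOperator (c • S : H →L[ℂ] H) := hS.smul c

theorem Cp.one : Cp (1 : unitary (H →L[ℂ] H)) := by
  unfold Cp
  have : ((1 : unitary (H →L[ℂ] H)) : H →L[ℂ] H) - 1 = 0 := sub_self _
  rw [this]; exact isCompactOperator_zero

theorem Cp.mul {g h : unitary (H →L[ℂ] H)} (hg : Cp g) (hh : Cp h) : Cp (g * h) := by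
  unfold Cp
  have : ((g * h : unitary (H →L[ℂ] H)) : H →L[ℂ] H) - 1 =
      (g : H →L[ℂ] H) * ((h : H →L[ℂ] H) - 1) + ((g : H →L[ℂ] H) - 1) := by
    rw [Submonoid.coe_mul]; noncomm_ring
  rw [this]; exact cpt_add (cpt_mul_left hh _) hg

theorem Cp.inv {g : unitary (H →L[ℂ] H)} (hg : Cp g) : Cp g⁻¹ := by
  unfold Cp
  have h1 : ((g⁻¹ : unitary (H →L[ℂ] H)) : H →L[ℂ] H) * (g : H →L[ℂ] H) = 1 := by
    rw [← Submonoid.coe_mul, inv_mul_cancel]; rfl
  have : ((g⁻¹ : unitary (H →L[ℂ] H)) : H →L[ℂ] H) - 1 =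
      (-((g⁻¹ : unitary (H →L[ℂ] H)) : H →L[ℂ] H)) * ((g : H →L[ℂ] H) - 1) := by
    rw [mul_sub, neg_mul, h1]; noncomm_ring
  rw [this]; exact cpt_mul_left hg _

theorem norm_unitary_mul (g : unitary (H →L[ℂ] H)) (T : H →L[ℂ] H) :
    ‖(g : H →L[ℂ] H) * T‖ = ‖T‖ := CStarRing.norm_coe_unitary_mul g T

/-- a compact operator kills bounded sequences that escape to infinity -/
theorem not_compact_of_far {T : H →L[ℂ] H} (hT : IsCompactOperator T) (ζ : ℕ → H)
    (K : ℕ → ℕ) (hK : Tendsto K atTop atTop) (hn : ∀ i, ‖ζ i‖ ≤ 1)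
    (ho : ∀ i, ∀ k < K i, ⟪b k, ζ i⟫_ℂ = 0) (hl : ∀ i, 1 ≤ ‖T (ζ i)‖) : False := by
  obtain ⟨S, hS, hsub⟩ := IsCompactOperator.image_closedBall_subset_compact
    (f := (T : H →ₗ[ℂ] H)) hT 1
  obtain ⟨η, -, φ, hφ, hlim⟩ := hS.tendsto_subseq (x := fun i => T (ζ i))
    (fun i => hsub ⟨ζ i, by simpa using hn i, rfl⟩)
  have hη : 1 ≤ ‖η‖ := ge_of_tendsto' hlim.norm fun i => hl _
  set θ := ContinuousLinearMap.adjoint T η with hθ
  have hs : Tendsto (fun K => ∑ k ∈ Finset.range K, b.repr θ k • b k) atTop (𝓝 θ) :=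
    (b.hasSum_repr θ).tendsto_sum_nat
  have h0 : Tendsto (fun i => ⟪θ, ζ i⟫_ℂ) atTop (𝓝 0) := by
    have h1 := tendsto_iff_norm_sub_tendsto_zero.1 (hs.comp hK)
    refine squeeze_zero_norm (fun i => ?_) h1
    have h2 : ⟪∑ k ∈ Finset.range (K i), b.repr θ k • b k, ζ i⟫_ℂ = 0 := by
      rw [sum_inner]
      refine Finset.sum_eq_zero fun k hk => ?_
      rw [inner_smul_left, ho i k (Finset.mem_range.1 hk), mul_zero]
    have h3 : ⟪θ, ζ i⟫_ℂ = -⟪∑ k ∈ Finset.range (K i), b.repr θ k • b k - θ, ζ i⟫_ℂ := by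
      rw [inner_sub_left, h2]; ring
    rw [h3, norm_neg]
    refine (norm_inner_le_norm _ _).trans ?_
    exact mul_le_of_le_one_right (norm_nonneg _) (hn i)
  have h4 : Tendsto (fun i => ⟪η, T (ζ (φ i))⟫_ℂ) atTop (𝓝 ⟪η, η⟫_ℂ) :=
    tendsto_const_nhds.inner hlim
  have h5 : Tendsto (fun i => ⟪η, T (ζ (φ i))⟫_ℂ) atTop (𝓝 0) := by
    have := h0.comp hφ.tendsto_atTop
    refine this.congr fun i => ?_
    simp only [Function.comp, hθ, ContinuousLinearMap.adjoint_inner_left]
  have h6 := tendsto_nhds_unique h4 h5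
  rw [inner_self_eq_zero] at h6
  rw [h6, norm_zero] at hη
  linarith

end Pool.Agent.H933Z.Ess
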